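import Pool.Graph.R_pool_sql_team_seeded_3997aac3.Q182.LuMain

/-!
# Homomorphisms from subgroups of finite index to groups in the class
-/

set_option autoImplicit false

namespace Pool.Agent.H751.CH

open Pool.Agent.Y462.SS (Closed)
open Q182.Cyl (ClosedA)

variable {C : ∀ (G : Type) [Group G], Prop}

theorem C_loc (hC : Closed C) (G : Type) [Group G] (h : ∀ L : Subgroup G, L.FG → C L) : C G := by
  classical
  refine Pool.Agent.Y430.SS.of_directed hC G (Finset G) (fun i j => ?_)
    (fun s => Subgroup.closure (s : Set G))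
    (fun s t h => Subgroup.closure_mono (by exact_mod_cast h))
    (fun g => ⟨{g}, Subgroup.subset_closure (by simp)⟩) (fun s => h _ ⟨s, rfl⟩)
  exact ⟨i ∪ j, Finset.subset_union_left, Finset.subset_union_right⟩

/-- finitely many homomorphisms to groups in the class -/
theorem fin_det_iff (hC : Closed C) {G ι : Type} [Group G] (P : ι → Type) [∀ i, Group (P i)]
    (f : ∀ i, G →* P i) (h : ∀ i, C (P i)) (s : Finset ι) :
    ∃ (Q : Type) (_ : Group Q) (F : G →* Q), C Q ∧ ∀ g, F g = 1 ↔ ∀ i ∈ s, f i g = 1 := by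
  classical
  induction s using Finset.induction_on with
  | empty =>
    refine ⟨(⊥ : Subgroup G), inferInstance, 1, Pool.Agent.Y430.SS.of_finite hC _ inferInstance,
      fun g => ⟨fun _ i hi => absurd hi (Finset.notMem_empty i), fun _ => rfl⟩⟩
  | insert a s _ ih =>
    obtain ⟨Q, _, F, hQ, hF⟩ := ih
    refine ⟨P a × Q, inferInstance, (f a).prod F, hC.prod _ _ (h a) hQ, fun g => ?_⟩
    rw [MonoidHom.prod_apply, Prod.mk_eq_one, hF]
    constructor
    · rintro ⟨h1, h2⟩ i hi
      rcases Finset.mem_insert.1 hi with rfl | hi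
      · exact h1
      · exact h2 i hi
    · intro h1
      exact ⟨h1 a (Finset.mem_insert_self _ _), fun i hi => h1 i (Finset.mem_insert_of_mem hi)⟩

/-- the image of `N` is in the class if it is determined by a homomorphism to a group in `C` -/
theorem C_of_ker (hC : Closed C) {N M Q : Type} [Group N] [Group M] [Group Q] (φ : N →* M)
    (hφ : Function.Surjective φ) (F : N →* Q) (hF : ∀ x, φ x = 1 ↔ F x = 1) (hQ : C Q) : C M := by
  have e : φ.ker = F.ker := by
    ext x
    exact hF x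
  refine hC.of_injective _ _ (((QuotientGroup.kerLift F).comp
    (QuotientGroup.quotientMulEquivOfEq e).toMonoidHom).comp
    (QuotientGroup.quotientKerEquivOfSurjective φ hφ).symm.toMonoidHom) ?_ hQ
  exact ((QuotientGroup.kerLift_injective F).comp
    (QuotientGroup.quotientMulEquivOfEq e).injective).comp
    (QuotientGroup.quotientKerEquivOfSurjective φ hφ).symm.injective

/-- **Induction from subgroups of finite index.** -/
theorem ind_det (hC : Closed C) {L : Type} [Group L] (L₁ : Subgroup L) [hfin : L₁.FiniteIndex]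
    {P : Type} [Group P] (f : L₁ →* P) (hP : C P) :
    ∃ (D : Type) (_ : Group D) (ρ : L →* D), C D ∧
      ∀ x, ρ x = 1 → ∃ hx : x ∈ L₁, f ⟨x, hx⟩ = 1 := by
  classical
  -- the normal core
  have hNn : L₁.normalCore.Normal := L₁.normalCore_normal
  have hNle : L₁.normalCore ≤ L₁ := L₁.normalCore_le
  have hNfin : L₁.normalCore.FiniteIndex := inferInstance
  obtain ⟨N, hN⟩ : ∃ N : Subgroup L, N = L₁.normalCore := ⟨_, rfl⟩
  rw [← hN] at hNn hNle hNfin
  -- the conjugates of `f`
  let cj : L → N →* P := fun l =>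
    { toFun := fun n => f ⟨l * n * l⁻¹, hNle (hNn.conj_mem n n.2 l)⟩
      map_one' := by
        rw [← map_one f]
        congr 1
        exact Subtype.ext (by simp)
      map_mul' := fun a b => by
        rw [← map_mul f]
        congr 1
        exact Subtype.ext (by simp [mul_assoc]) }
  have hcj : ∀ l (n : N), cj l n = f ⟨l * n * l⁻¹, hNle (hNn.conj_mem n n.2 l)⟩ := fun _ _ => rfl
  -- only the class of `l` matters
  have hcls : ∀ (a : L) (ha : a ∈ L₁) (l : L) (n : N), cj l n = 1 → cj (a * l) n = 1 := by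
    intro a ha l n h1
    rw [hcj] at h1 ⊢
    have e : (⟨a * l * n * (a * l)⁻¹, hNle (hNn.conj_mem n n.2 (a * l))⟩ : L₁) =
        ⟨a, ha⟩ * ⟨l * n * l⁻¹, hNle (hNn.conj_mem n n.2 l)⟩ * ⟨a, ha⟩⁻¹ :=
      Subtype.ext (by simp [mul_assoc])
    rw [e, map_mul, map_mul, h1, mul_one, map_inv, mul_inv_cancel]
  -- representatives
  have : Finite (L ⧸ L₁) := Subgroup.finite_quotient_of_finiteIndex
  have := Fintype.ofFinite (L ⧸ L₁)
  obtain ⟨Q, _, F, hQ, hF⟩ := fin_det_iff hC (fun _ : L ⧸ L₁ => P)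
    (fun i => cj (Quotient.out i)⁻¹) (fun _ => hP) Finset.univ
  have hFall : ∀ n : N, F n = 1 ↔ ∀ l, cj l n = 1 := by
    intro n
    rw [hF]
    constructor
    · intro h1 l
      have h2 := h1 (QuotientGroup.mk l⁻¹) (Finset.mem_univ _)
      have h3 : (Quotient.out (QuotientGroup.mk l⁻¹ : L ⧸ L₁))⁻¹ * l⁻¹ ∈ L₁ := by
        rw [← QuotientGroup.eq]
        exact Quotient.out_eq _
      have h4 := hcls _ (L₁.inv_mem h3) _ n h2
      rwa [mul_inv_rev, inv_inv, inv_mul_cancel_right] at h4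
    · intro h1 i _
      exact h1 _
  -- the normal subgroup
  let K₀ : Subgroup L :=
    { carrier := {x | ∃ hx : x ∈ N, ∀ l, cj l ⟨x, hx⟩ = 1}
      one_mem' := ⟨N.one_mem, fun l => (cj l).map_one⟩
      mul_mem' := by
        rintro a b ⟨ha, ha'⟩ ⟨hb, hb'⟩
        refine ⟨N.mul_mem ha hb, fun l => ?_⟩
        have : (⟨a * b, N.mul_mem ha hb⟩ : N) = ⟨a, ha⟩ * ⟨b, hb⟩ := rfl
        rw [this, map_mul, ha', hb', mul_one]
      inv_mem' := by
        rintro a ⟨ha, ha'⟩
        refine ⟨N.inv_mem ha, fun l => ?_⟩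
        have : (⟨a⁻¹, N.inv_mem ha⟩ : N) = ⟨a, ha⟩⁻¹ := rfl
        rw [this, map_inv, ha', inv_one] }
  have hK₀ : ∀ x, x ∈ K₀ ↔ ∃ hx : x ∈ N, ∀ l, cj l ⟨x, hx⟩ = 1 := fun _ => Iff.rfl
  have hK₀n : K₀.Normal := by
    refine ⟨fun x hx g => ?_⟩
    obtain ⟨h1, h2⟩ := (hK₀ x).1 hx
    refine (hK₀ _).2 ⟨hNn.conj_mem x h1 g, fun l => ?_⟩
    have h3 := h2 (l * g)
    rw [hcj] at h3 ⊢
    rw [← h3]
    congr 1
    exact Subtype.ext (by simp [mul_assoc])
  refine ⟨L ⧸ K₀, inferInstance, QuotientGroup.mk' K₀, ?_, ?_⟩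
  · refine hC.finiteIndex _ (N.map (QuotientGroup.mk' K₀)) ?_ ?_
    · refine ⟨?_⟩
      rw [Subgroup.index_map, QuotientGroup.ker_mk', MonoidHom.range_eq_top.2
        (QuotientGroup.mk'_surjective K₀), Subgroup.index_top, mul_one]
      have hle : N ≤ N ⊔ K₀ := le_sup_left
      exact (Subgroup.finiteIndex_of_le hle).index_ne_zero
    · refine C_of_ker hC ((QuotientGroup.mk' K₀).subgroupMap N)
        ((QuotientGroup.mk' K₀).subgroupMap_surjective N) F (fun x => ?_) hQ
      rw [hFall]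
      constructor
      · intro h1 l
        have h2 : QuotientGroup.mk' K₀ (x : L) = 1 := congrArg Subtype.val h1
        rw [QuotientGroup.mk'_apply, QuotientGroup.eq_one_iff] at h2
        obtain ⟨_, h3⟩ := (hK₀ _).1 h2
        exact h3 l
      · intro h1
        apply Subtype.ext
        change QuotientGroup.mk' K₀ (x : L) = 1
        rw [QuotientGroup.mk'_apply, QuotientGroup.eq_one_iff]
        exact (hK₀ _).2 ⟨x.2, h1⟩
  · intro x hx
    rw [QuotientGroup.mk'_apply, QuotientGroup.eq_one_iff] at hx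
    obtain ⟨h1, h2⟩ := (hK₀ _).1 hx
    refine ⟨hNle h1, ?_⟩
    have h3 := h2 1
    rw [hcj] at h3
    rw [← h3]
    congr 1
    exact Subtype.ext (by simp)

end Pool.Agent.H751.CH
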