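import Pool.Agent.H751.CH.Tree

/-!
# Hierarchies given by actions on partial cubes
-/

set_option autoImplicit false
set_option linter.style.haveILetI false

namespace Pool.Agent.H751.CH

open Pointwise

/-- `K` acts without inversions on a tree, the vertex stabilizers are in `C`, the edge stabilizers
are in `D`. -/
def TreeAct (C D : ∀ (K : Type) [Group K], Prop) (K : Type) [Group K] : Prop :=
  ∃ (T : Type) (_ : MulAction K T) (A : SimpleGraph T), A.IsTree ∧
    (∀ (g : K) (a b : T), A.Adj a b → A.Adj (g • a) (g • b)) ∧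
    (∀ (g : K) (a b : T), A.Adj a b → g • a = b → g • b ≠ a) ∧
    (∀ a : T, C (MulAction.stabilizer K a)) ∧
    (∀ a b : T, A.Adj a b → D ↥(MulAction.stabilizer K a ⊓ MulAction.stabilizer K b))

/-- Closure properties of a class `C` of groups relative to a class `D`: isomorphic groups, groups
all of whose finitely generated subgroups are in `C`, and groups which act without inversions on
trees with vertex stabilizers in `C` and edge stabilizers in `D`. -/
structure TreeClosed (C D : ∀ (K : Type) [Group K], Prop) : Prop where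
  iso : ∀ (K L : Type) [Group K] [Group L], Nonempty (K ≃* L) → C K → C L
  isoD : ∀ (K L : Type) [Group K] [Group L], Nonempty (K ≃* L) → D K → D L
  loc : ∀ (G : Type) [Group G], (∀ L : Subgroup G, L.FG → C L) → C G
  tree : ∀ (K : Type) [Group K], TreeAct C D K → C K

/-- A set `V` with a family `H` of subsets, the half-spaces. `x` and `z` are neighbours if exactly
one wall `{h, hᶜ}` separates them; the last condition says that the number of the walls that
separate `x` and `y` is the distance of `x` and `y` in this graph. -/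
structure PartialCube (V : Type) (H : Set (Set V)) : Prop where
  compl : ∀ h ∈ H, hᶜ ∈ H
  fin : ∀ x y : V, {h | h ∈ H ∧ x ∈ h ∧ y ∉ h}.Finite
  step : ∀ x y : V, x ≠ y →
    ∃ z, ∃ h ∈ H, x ∈ h ∧ z ∉ h ∧ y ∉ h ∧ ∀ k ∈ H, x ∈ k → z ∉ k → k = h

/-- two half-spaces cross: all four corners are nonempty -/
def Crosses {V : Type} (a b : Set V) : Prop :=
  (a ∩ b).Nonempty ∧ (a ∩ bᶜ).Nonempty ∧ (aᶜ ∩ b).Nonempty ∧ (aᶜ ∩ bᶜ).Nonempty

section one

variable {K X I : Type} [Group K] [MulAction K X] [MulAction K I] {s : I → X → Prop} {c : I → I}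

theorem walls_treeAct [Nonempty X] (h : WallFam K X I s c) (C D : ∀ (K : Type) [Group K], Prop)
    (hC : ∀ (x : X) (L : Subgroup K), (∀ g, g ∈ L ↔ Sm s (g • x) x) → C L)
    (hD : ∀ (i : I) (x : X) (L : Subgroup K), s i x → (∀ g ∈ L, g • i = i) → D L) :
    TreeAct C D K := by
  letI := vtAct h
  refine ⟨Vt s, vtAct h, vtGraph h, vt_tree h, ?_, ?_, ?_, ?_⟩
  · rintro g _ _ ⟨x, z, rfl, rfl, h1⟩
    exact ⟨g • x, g • z, rfl, rfl, h.one_smul g h1⟩
  · rintro g _ _ ⟨x, z, rfl, rfl, i, h1, h2, h3⟩ h4 h5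
    rw [vtAct_mk, Vt.mk_eq] at h4 h5
    apply h.noinv g i
    have h6 : s (g • i) z := (h4 _).1 ((h.equi g i x).2 h1)
    have h7 : ¬ s (g • i) x := fun h8 => h2 ((h.equi g i z).1 ((h5 _).2 h8))
    have e := h3 (c (g • i)) ((h.compl _ x).2 h7) (fun h8 => (h.compl _ z).1 h8 h6)
    calc g • i = c (c (g • i)) := (h.cc _).symm
      _ = c i := by rw [e]
  · intro a
    obtain ⟨x, rfl⟩ := a.rep
    refine hC x _ ?_
    intro g
    rw [MulAction.mem_stabilizer_iff, vtAct_mk, Vt.mk_eq]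
  · rintro _ _ ⟨x, z, rfl, rfl, i, h1, h2, h3⟩
    refine hD i x _ h1 ?_
    intro g hg
    obtain ⟨hg1, hg2⟩ := Subgroup.mem_inf.1 hg
    rw [MulAction.mem_stabilizer_iff, vtAct_mk, Vt.mk_eq] at hg1 hg2
    exact h3 (g • i) ((hg1 _).1 ((h.equi g i x).2 h1))
      (fun h8 => h2 ((h.equi g i z).1 ((hg2 _).2 h8)))

end one

section main

variable {V G : Type} [Group G] [MulAction G V]

/-- not separated by the family `A` -/
def Sim (A : Set (Set V)) (x y : V) : Prop := ∀ h ∈ A, x ∈ h ↔ y ∈ h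

theorem Sim.symm {A : Set (Set V)} {x y : V} (h : Sim A x y) : Sim A y x :=
  fun k hk => (h k hk).symm

theorem Sim.trans {A : Set (Set V)} {x y z : V} (h : Sim A x y) (h' : Sim A y z) : Sim A x z :=
  fun k hk => (h k hk).trans (h' k hk)

theorem Sim.smul {A : Set (Set V)} {L : Subgroup G} (hA : ∀ g ∈ L, ∀ h ∈ A, g • h ∈ A) {g : G}
    (hg : g ∈ L) {x y : V} (h : Sim A x y) : Sim A (g • x) (g • y) := by
  intro k hk
  have h1 := h (g⁻¹ • k) (hA _ (L.inv_mem hg) k hk)
  rwa [Set.mem_inv_smul_set_iff, Set.mem_inv_smul_set_iff] at h1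

/-- the elements of `L` that preserve the class of `x` -/
def clsStab (L : Subgroup G) (A : Set (Set V)) (hA : ∀ g ∈ L, ∀ h ∈ A, g • h ∈ A) (x : V) :
    Subgroup G where
  carrier := {g | g ∈ L ∧ Sim A (g • x) x}
  one_mem' := ⟨L.one_mem, by rw [one_smul]; exact fun _ _ => Iff.rfl⟩
  mul_mem' := by
    rintro a b ⟨ha, ha'⟩ ⟨hb, hb'⟩
    refine ⟨L.mul_mem ha hb, ?_⟩
    rw [mul_smul]
    exact (Sim.smul hA ha hb').trans ha'
  inv_mem' := by
    rintro a ⟨ha, ha'⟩
    refine ⟨L.inv_mem ha, ?_⟩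
    have := Sim.smul hA (L.inv_mem ha) ha'.symm
    rwa [inv_smul_smul] at this

/-- the walls in the orbit of `h₀` -/
def orb (L : Subgroup G) (h₀ : Set V) : Set (Set V) :=
  {k | ∃ g ∈ L, k = g • h₀ ∨ k = (g • h₀)ᶜ}

theorem orb_inv (L : Subgroup G) (h₀ : Set V) : ∀ g ∈ L, ∀ h ∈ orb L h₀, g • h ∈ orb L h₀ := by
  rintro g hg _ ⟨g', hg', rfl | rfl⟩
  · exact ⟨g * g', L.mul_mem hg hg', Or.inl (by rw [mul_smul])⟩
  · exact ⟨g * g', L.mul_mem hg hg', Or.inr (by rw [mul_smul, Set.smul_set_compl])⟩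

theorem orb_compl (L : Subgroup G) (h₀ : Set V) : ∀ h ∈ orb L h₀, hᶜ ∈ orb L h₀ := by
  rintro _ ⟨g', hg', rfl | rfl⟩
  · exact ⟨g', hg', Or.inr rfl⟩
  · exact ⟨g', hg', Or.inl (by rw [compl_compl])⟩

variable {H : Set (Set V)}

/-- one step from the class of `x` towards `y` -/
theorem exists_step (hH : PartialCube V H) {A O : Set (Set V)} (hA : A ⊆ H) (hO : O ⊆ H) (hOc : ∀ h ∈ O, hᶜ ∈ O) (n : ℕ) : ∀ x y : V,
    {h | h ∈ H ∧ x ∈ h ∧ y ∉ h}.ncard = n → Sim A x y → (∃ i ∈ O, x ∈ i ∧ y ∉ i) →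
    ∃ z, Sim A z x ∧ ∃ j ∈ O, x ∈ j ∧ z ∉ j ∧ y ∉ j ∧ ∀ k ∈ O, x ∈ k → z ∉ k → k = j := by
  induction n using Nat.strong_induction_on with
  | _ n ih =>
    rintro x y hn hxy ⟨i, hi, hix, hiy⟩
    have hne : x ≠ y := by
      rintro rfl
      exact hiy hix
    obtain ⟨z, h, hh, h1, h2, h3, h4⟩ := hH.step x y hne
    have h4' : ∀ k ∈ H, z ∈ k → x ∉ k → k = hᶜ := by
      intro k hk hz hx
      have := h4 kᶜ (hH.compl k hk) hx (fun h5 => h5 hz)
      rw [← this, compl_compl]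
    have hAz : Sim A z x := by
      intro k hk
      constructor
      · intro hz
        by_contra hx
        have h5 := h4' k (hA hk) hz hx
        have h6 : y ∈ k := by
          rw [h5]
          exact h3
        exact hx ((hxy k hk).2 h6)
      · intro hx
        by_contra hz
        have h5 := h4 k (hA hk) hx hz
        rw [← h5] at h3
        exact h3 ((hxy k hk).1 hx)
    by_cases hO1 : h ∈ O
    · exact ⟨z, hAz, h, hO1, h1, h2, h3, fun k hk => h4 k (hO hk)⟩
    · have hOz : Sim O z x := by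
        intro k hk
        constructor
        · intro hz
          by_contra hx
          have h5 := h4' k (hO hk) hz hx
          apply hO1
          rw [← compl_compl h, ← h5]
          exact hOc k hk
        · intro hx
          by_contra hz
          apply hO1
          rw [← h4 k (hO hk) hx hz]
          exact hk
      have hsub : {k | k ∈ H ∧ z ∈ k ∧ y ∉ k} ⊂ {k | k ∈ H ∧ x ∈ k ∧ y ∉ k} := by
        refine ⟨?_, ?_⟩
        · rintro k ⟨hk, hk1, hk2⟩
          refine ⟨hk, ?_, hk2⟩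
          by_contra hk3
          apply hk2
          rw [h4' k hk hk1 hk3]
          exact h3
        · intro hle
          have : h ∈ {k | k ∈ H ∧ z ∈ k ∧ y ∉ k} := hle ⟨hh, h1, h3⟩
          exact h2 this.2.1
      have hlt : {k | k ∈ H ∧ z ∈ k ∧ y ∉ k}.ncard < n := by
        rw [← hn]
        exact Set.ncard_lt_ncard hsub (hH.fin x y)
      obtain ⟨z', hz', j, hj, hj1, hj2, hj3, hj4⟩ :=
        ih _ hlt z y rfl (hAz.trans hxy) ⟨i, hi, (hOz i hi).2 hix, hiy⟩
      refine ⟨z', hz'.trans hAz, j, hj, (hOz j hj).1 hj1, hj2, hj3, ?_⟩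
      intro k hk hkx hkz
      exact hj4 k hk ((hOz k hk).2 hkx) hkz

theorem crosses_compl {a b : Set V} (h : Crosses a bᶜ) : Crosses a b := by
  obtain ⟨h1, h2, h3, h4⟩ := h
  rw [compl_compl] at h2 h4
  exact ⟨h2, h1, h4, h3⟩

theorem nest_of_not {a b : Set V} (h : ¬ Crosses a b) : (∀ x, ¬ (x ∈ a ∧ x ∈ b)) ∨
    (∀ x, ¬ (x ∈ a ∧ ¬ x ∈ b)) ∨ (∀ x, ¬ (¬ x ∈ a ∧ x ∈ b)) ∨ (∀ x, ¬ (¬ x ∈ a ∧ ¬ x ∈ b)) := by
  by_contra hc
  push Not at hc
  obtain ⟨⟨x1, h1, h1'⟩, ⟨x2, h2, h2'⟩, ⟨x3, h3, h3'⟩, ⟨x4, h4, h4'⟩⟩ := hc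
  exact h ⟨⟨x1, h1, h1'⟩, ⟨x2, h2, h2'⟩, ⟨x3, h3, h3'⟩, ⟨x4, h4, h4'⟩⟩

/-- **Cutting along one orbit of walls.** -/
theorem cut_one {C D : ∀ (K : Type) [Group K], Prop} (hCD : TreeClosed C D)
    (hH : PartialCube V H) (hinv : ∀ g : G, ∀ h ∈ H, g • h ∈ H)
    (hcross : ∀ g : G, ∀ h ∈ H, ¬ Crosses h (g • h)) (hno : ∀ g : G, ∀ h ∈ H, g • h ≠ hᶜ)
    (hD : ∀ h ∈ H, ∀ K : Subgroup G, K ≤ MulAction.stabilizer G h → D K)
    {L : Subgroup G} {A : Set (Set V)} (hA : A ⊆ H)
    (hAL : ∀ g ∈ L, ∀ h ∈ A, g • h ∈ A) {h₀ : Set V} (h₀H : h₀ ∈ H)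
    (hUL : ∀ g ∈ L, ∀ h ∈ A ∪ orb L h₀, g • h ∈ A ∪ orb L h₀)
    (hC : ∀ x, C ↥(clsStab L (A ∪ orb L h₀) hUL x)) (x₀ : V) : C ↥(clsStab L A hAL x₀) := by
  have hOH : orb L h₀ ⊆ H := by
    rintro _ ⟨g, _, rfl | rfl⟩
    · exact hinv g _ h₀H
    · exact hH.compl _ (hinv g _ h₀H)
  apply hCD.tree
  set K := clsStab L A hAL x₀ with hK
  letI actX : MulAction K {y // Sim A y x₀} :=
    { smul := fun g y => ⟨(g : G) • y.1, (Sim.smul hAL g.2.1 y.2).trans g.2.2⟩
      one_smul := fun y => Subtype.ext (one_smul G y.1)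
      mul_smul := fun g g' y => Subtype.ext (mul_smul (g : G) (g' : G) y.1) }
  letI actI : MulAction K {k // k ∈ orb L h₀} :=
    { smul := fun g k => ⟨(g : G) • k.1, orb_inv L h₀ _ g.2.1 _ k.2⟩
      one_smul := fun k => Subtype.ext (one_smul G k.1)
      mul_smul := fun g g' k => Subtype.ext (mul_smul (g : G) (g' : G) k.1) }
  haveI : Nonempty {y // Sim A y x₀} := ⟨⟨x₀, fun _ _ => Iff.rfl⟩⟩
  let s : {k // k ∈ orb L h₀} → {y // Sim A y x₀} → Prop := fun i x => x.1 ∈ i.1
  let c : {k // k ∈ orb L h₀} → {k // k ∈ orb L h₀} := fun i => ⟨i.1ᶜ, orb_compl L h₀ _ i.2⟩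
  have hW : WallFam K {y // Sim A y x₀} {k // k ∈ orb L h₀} s c := by
    refine ⟨fun i x => Iff.rfl, fun i => Subtype.ext (compl_compl _), ?_, ?_, ?_, ?_, ?_⟩
    · intro g i x
      exact Set.smul_mem_smul_set_iff
    · intro x y
      exact Set.Finite.preimage (f := fun i : {k // k ∈ orb L h₀} => i.1)
        (fun i _ j _ h => Subtype.ext h)
        ((hH.fin x.1 y.1).subset (fun k hk => hk)) |>.subset
        (fun i hi => ⟨hOH i.2, hi.1, hi.2⟩)
    · intro x y i hx hy
      obtain ⟨z, hz, j, hj, hj1, hj2, hj3, hj4⟩ := exists_step hH hA hOH (orb_compl L h₀) _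
        x.1 y.1 rfl (x.2.trans y.2.symm) ⟨i.1, i.2, hx, hy⟩
      exact ⟨⟨z, hz.trans x.2⟩, ⟨j, hj⟩, hj1, hj2, hj3,
        fun k hk hk' => Subtype.ext (hj4 k.1 k.2 hk hk')⟩
    · rintro ⟨i, gi, hgi, hi⟩ ⟨j, gj, hgj, hj⟩
      have hiH : i ∈ H := hOH ⟨gi, hgi, hi⟩
      have hcr : ¬ Crosses i j := by
        have e : j = (gj * gi⁻¹) • i ∨ j = ((gj * gi⁻¹) • i)ᶜ := by
          rcases hi with rfl | rfl <;> rcases hj with rfl | rfl
          · left; rw [mul_smul, inv_smul_smul]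
          · right; rw [mul_smul, inv_smul_smul]
          · right; rw [Set.smul_set_compl, mul_smul, inv_smul_smul, compl_compl]
          · left; rw [Set.smul_set_compl, mul_smul, inv_smul_smul]
        rcases e with e | e
        · rw [e]
          exact hcross _ i hiH
        · rw [e]
          exact fun h => hcross _ i hiH (crosses_compl h)
      rcases nest_of_not hcr with h | h | h | h
      · exact Or.inl fun x => h x.1
      · exact Or.inr (Or.inl fun x => h x.1)
      · exact Or.inr (Or.inr (Or.inl fun x => h x.1))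
      · exact Or.inr (Or.inr (Or.inr fun x => h x.1))
    · intro g i h
      exact hno g i.1 (hOH i.2) (congrArg Subtype.val h)
  refine walls_treeAct hW C D ?_ ?_
  · intro x M hM
    have hx : Sim A x.1 x₀ := x.2
    refine hCD.iso _ _ ⟨MulEquiv.symm ?_⟩ (hC x.1)
    refine
      { toFun := fun m => ⟨m.1.1, m.1.2.1, ?_⟩
        invFun := fun g => ⟨⟨g.1, g.2.1, ?_⟩, ?_⟩
        left_inv := fun m => rfl
        right_inv := fun g => rfl
        map_mul' := fun m m' => rfl }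
    · have h1 : Sm s (m.1 • x) x := (hM m.1).1 m.2
      intro k hk
      rcases hk with hk | hk
      · exact ((Sim.smul hAL m.1.2.1 hx).trans (m.1.2.2.trans hx.symm)) k hk
      · exact h1 ⟨k, hk⟩
    · have h1 : Sim A (g.1 • x.1) x.1 := fun k hk => g.2.2 k (Or.inl hk)
      exact (Sim.smul hAL g.2.1 hx.symm).trans (h1.trans hx)
    · exact (hM _).2 (fun i => g.2.2 i.1 (Or.inr i.2))
  · intro i x M hx hM
    refine hCD.isoD _ _ ⟨(M.equivMapOfInjective K.subtype K.subtype_injective).symm⟩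
      (hD i.1 (hOH i.2) (M.map K.subtype) ?_)
    rintro _ ⟨m, hm, rfl⟩
    exact congrArg Subtype.val (hM m hm)

/-- the family of the walls in `B` and in the orbits of the elements of `F` -/
def fam (L : Subgroup G) (B : Set (Set V)) (F : Finset (Set V)) : Set (Set V) :=
  {k | k ∈ B ∨ ∃ f ∈ F, k ∈ orb L f}

theorem fam_inv (L : Subgroup G) {B : Set (Set V)} (hB : ∀ g ∈ L, ∀ h ∈ B, g • h ∈ B)
    (F : Finset (Set V)) : ∀ g ∈ L, ∀ h ∈ fam L B F, g • h ∈ fam L B F := by
  rintro g hg h (hh | ⟨f, hf, hh⟩)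
  · exact Or.inl (hB g hg h hh)
  · exact Or.inr ⟨f, hf, orb_inv L f g hg h hh⟩

theorem clsStab_congr {C : ∀ (K : Type) [Group K], Prop} {L : Subgroup G} {A A' : Set (Set V)}
    (e : A = A') (hA : ∀ g ∈ L, ∀ h ∈ A, g • h ∈ A) (hA' : ∀ g ∈ L, ∀ h ∈ A', g • h ∈ A') (x : V)
    (h : C ↥(clsStab L A hA x)) : C ↥(clsStab L A' hA' x) := by
  subst e
  exact h

open Classical in
theorem cut_fin {C D : ∀ (K : Type) [Group K], Prop} (hCD : TreeClosed C D)
    (hH : PartialCube V H) (hinv : ∀ g : G, ∀ h ∈ H, g • h ∈ H)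
    (hcross : ∀ g : G, ∀ h ∈ H, ¬ Crosses h (g • h)) (hno : ∀ g : G, ∀ h ∈ H, g • h ≠ hᶜ)
    (hD : ∀ h ∈ H, ∀ K : Subgroup G, K ≤ MulAction.stabilizer G h → D K)
    {L : Subgroup G} {B : Set (Set V)} (hB : B ⊆ H)
    (hBL : ∀ g ∈ L, ∀ h ∈ B, g • h ∈ B) (F : Finset (Set V)) (hF : ∀ f ∈ F, f ∈ H) :
    (∀ x, C ↥(clsStab L (fam L B F) (fam_inv L hBL F) x)) → ∀ x, C ↥(clsStab L B hBL x) := by
  induction F using Finset.induction_on with
  | empty =>
    intro h x
    refine clsStab_congr ?_ _ _ x (h x)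
    ext k
    simp [fam]
  | insert f F _ ih =>
    intro h
    apply ih (fun f' hf' => hF f' (Finset.mem_insert_of_mem hf'))
    have hfam : fam L B (insert f F) = fam L B F ∪ orb L f := by
      ext k
      simp only [fam, Finset.mem_insert, Set.mem_ofPred_eq, Set.mem_union]
      constructor
      · rintro (h1 | ⟨f', rfl | h2, h3⟩)
        · exact Or.inl (Or.inl h1)
        · exact Or.inr h3
        · exact Or.inl (Or.inr ⟨f', h2, h3⟩)
      · rintro ((h1 | ⟨f', h2, h3⟩) | h1)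
        · exact Or.inl h1
        · exact Or.inr ⟨f', Or.inr h2, h3⟩
        · exact Or.inr ⟨f, Or.inl rfl, h1⟩
    have hFH : fam L B F ⊆ H := by
      rintro k (hk | ⟨f', hf', g, _, rfl | rfl⟩)
      · exact hB hk
      · exact hinv g _ (hF f' (Finset.mem_insert_of_mem hf'))
      · exact hH.compl _ (hinv g _ (hF f' (Finset.mem_insert_of_mem hf')))
    have hUL : ∀ g ∈ L, ∀ h ∈ fam L B F ∪ orb L f, g • h ∈ fam L B F ∪ orb L f := by
      rw [← hfam]
      exact fam_inv L hBL _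
    exact cut_one hCD hH hinv hcross hno hD hFH (fam_inv L hBL F)
      (hF f (Finset.mem_insert_self _ _)) hUL
      (fun x => clsStab_congr hfam (fam_inv L hBL _) hUL x (h x))

open Classical in
/-- **Groups acting on partial cubes such that no wall crosses its translates.** -/
theorem cubical_main {C D : ∀ (K : Type) [Group K], Prop} (hCD : TreeClosed C D) [Nonempty V]
    (hH : PartialCube V H) (hinv : ∀ g : G, ∀ h ∈ H, g • h ∈ H)
    (hcross : ∀ g : G, ∀ h ∈ H, ¬ Crosses h (g • h)) (hno : ∀ g : G, ∀ h ∈ H, g • h ≠ hᶜ)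
    (hC : ∀ x : V, ∀ K : Subgroup G, K ≤ MulAction.stabilizer G x → C K)
    (hD : ∀ h ∈ H, ∀ K : Subgroup G, K ≤ MulAction.stabilizer G h → D K) : C G := by
  apply hCD.loc
  rintro L ⟨S, hS⟩
  let o : V := Classical.arbitrary V
  let B : Set (Set V) := {h | h ∈ H ∧ ∀ g ∈ L, ∀ g' ∈ L, (g • o ∈ h ↔ g' • o ∈ h)}
  have hB : B ⊆ H := fun h hh => hh.1
  have hBL : ∀ g ∈ L, ∀ h ∈ B, g • h ∈ B := by
    rintro g hg h ⟨h1, h2⟩
    refine ⟨hinv g h h1, ?_⟩
    intro a ha b hb
    rw [Set.mem_smul_set_iff_inv_smul_mem, Set.mem_smul_set_iff_inv_smul_mem, ← mul_smul,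
      ← mul_smul]
    exact h2 _ (L.mul_mem (L.inv_mem hg) ha) _ (L.mul_mem (L.inv_mem hg) hb)
  let F : Finset (Set V) := S.biUnion (fun s => (hH.fin o (s • o)).toFinset ∪
    (hH.fin (s • o) o).toFinset)
  have hF : ∀ f ∈ F, f ∈ H := by
    intro f hf
    obtain ⟨s, _, hs⟩ := Finset.mem_biUnion.1 hf
    rcases Finset.mem_union.1 hs with h | h
    · exact ((hH.fin o (s • o)).mem_toFinset.1 h).1
    · exact ((hH.fin (s • o) o).mem_toFinset.1 h).1
  have hfam : fam L B F = H := by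
    apply Set.Subset.antisymm
    · rintro k (hk | ⟨f', hf', g, _, rfl | rfl⟩)
      · exact hB hk
      · exact hinv g _ (hF f' hf')
      · exact hH.compl _ (hinv g _ (hF f' hf'))
    · intro h hh
      by_contra hcon
      have hnB : h ∉ B := fun h1 => hcon (Or.inl h1)
      have hnF : ∀ f ∈ F, h ∉ orb L f := fun f hf h1 => hcon (Or.inr ⟨f, hf, h1⟩)
      apply hnB
      -- the wall `h` separates no two points of the orbit
      have h1 : ∀ l ∈ L, ∀ s ∈ S, (l • o ∈ h ↔ l • s • o ∈ h) := by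
        intro l hl s hs
        constructor
        · intro h2
          by_contra h3
          refine hnF (l⁻¹ • h) ?_ ⟨l, hl, Or.inl (by rw [smul_inv_smul])⟩
          refine Finset.mem_biUnion.2 ⟨s, hs, Finset.mem_union.2 (Or.inl ?_)⟩
          rw [Set.Finite.mem_toFinset]
          refine ⟨hinv _ h hh, ?_, ?_⟩
          · rw [Set.mem_inv_smul_set_iff]
            exact h2
          · rw [Set.mem_inv_smul_set_iff]
            exact h3
        · intro h2
          by_contra h3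
          refine hnF (l⁻¹ • h) ?_ ⟨l, hl, Or.inl (by rw [smul_inv_smul])⟩
          refine Finset.mem_biUnion.2 ⟨s, hs, Finset.mem_union.2 (Or.inr ?_)⟩
          rw [Set.Finite.mem_toFinset]
          refine ⟨hinv _ h hh, ?_, ?_⟩
          · rw [Set.mem_inv_smul_set_iff]
            exact h2
          · rw [Set.mem_inv_smul_set_iff]
            exact h3
      have h2 : ∀ w ∈ Subgroup.closure (S : Set G), ∀ l ∈ L, (l • o ∈ h ↔ l • w • o ∈ h) := by
        intro w hw
        induction hw using Subgroup.closure_induction with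
        | mem x hx => exact fun l hl => h1 l hl x hx
        | one => intro l _; rw [one_smul]
        | mul x y hx hy ihx ihy =>
          intro l hl
          have hx' : x ∈ L := by rw [← hS]; exact hx
          rw [ihx l hl, mul_smul, ← mul_smul l x o, ← mul_smul l x (y • o)]
          exact ihy (l * x) (L.mul_mem hl hx')
        | inv x hx ihx =>
          intro l hl
          have hx' : x ∈ L := by rw [← hS]; exact hx
          have := ihx (l * x⁻¹) (L.mul_mem hl (L.inv_mem hx'))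
          rw [← mul_smul (l * x⁻¹) x o, inv_mul_cancel_right] at this
          rw [← mul_smul l x⁻¹ o]
          exact this.symm
      refine ⟨hh, ?_⟩
      intro g hg g' hg'
      have h3 := h2 (g⁻¹ * g') (by rw [hS]; exact L.mul_mem (L.inv_mem hg) hg') g hg
      rw [h3, ← mul_smul, mul_inv_cancel_left]
  have hend : ∀ x, C ↥(clsStab L (fam L B F) (fam_inv L hBL F) x) := by
    intro x
    apply hC x
    rintro g ⟨_, hg⟩
    rw [MulAction.mem_stabilizer_iff]
    by_contra hne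
    obtain ⟨z, h, hh, h1, _, h3, _⟩ := hH.step _ _ hne
    rw [hfam] at hg
    exact h3 ((hg h hh).1 h1)
  have hres := cut_fin hCD hH hinv hcross hno hD hB hBL F hF hend o
  refine hCD.iso _ _ ⟨?_⟩ hres
  refine
    { toFun := fun g => ⟨g.1, g.2.1⟩
      invFun := fun g => ⟨g.1, g.2, ?_⟩
      left_inv := fun g => rfl
      right_inv := fun g => rfl
      map_mul' := fun g g' => rfl }
  intro h hh
  have := hh.2 g.1 g.2 1 L.one_mem
  rw [one_smul] at this
  exact this

end main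

end Pool.Agent.H751.CH
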