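import Pool.Agent.H751.CH.Med

/-!
# Hierarchies given by actions on partial cubes, with conditions on the pairs of groups
-/

set_option autoImplicit false
set_option linter.style.haveILetI false

namespace Pool.Agent.H751.CH

open Pointwise

/-- `K` acts without inversions on a tree such that all vertex stabilizers are in `C` and the edge
stabilizers `E` have the property `Q K E`. -/
def TreeActQ (C : ∀ (K : Type) [Group K], Prop) (Q : ∀ (K : Type) [Group K], Subgroup K → Prop)
    (K : Type) [Group K] : Prop :=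
  ∃ (T : Type) (_ : MulAction K T) (A : SimpleGraph T), A.IsTree ∧
    (∀ (g : K) (a b : T), A.Adj a b → A.Adj (g • a) (g • b)) ∧
    (∀ (g : K) (a b : T), A.Adj a b → g • a = b → g • b ≠ a) ∧
    (∀ a : T, C (MulAction.stabilizer K a)) ∧
    (∀ a b : T, A.Adj a b → Q K (MulAction.stabilizer K a ⊓ MulAction.stabilizer K b))

/-- Closure properties of a class `C` of groups relative to a property `Q` of pairs of a group and a
subgroup: both are invariant under isomorphisms, a group is in `C` if all its finitely generated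
subgroups are in `C`, and if it acts without inversions on a tree with vertex stabilizers in `C` and
edge stabilizers with the property `Q`. -/
structure TreeClosedQ (C : ∀ (K : Type) [Group K], Prop)
    (Q : ∀ (K : Type) [Group K], Subgroup K → Prop) : Prop where
  iso : ∀ (K L : Type) [Group K] [Group L], Nonempty (K ≃* L) → C K → C L
  isoQ : ∀ (K L : Type) [Group K] [Group L] (e : K ≃* L) (E : Subgroup K), Q K E →
    Q L (E.map e.toMonoidHom)
  loc : ∀ (G : Type) [Group G], (∀ L : Subgroup G, L.FG → C L) → C G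
  tree : ∀ (K : Type) [Group K], TreeActQ C Q K → C K

section one

variable {K X I : Type} [Group K] [MulAction K X] [MulAction K I] {s : I → X → Prop} {c : I → I}

theorem walls_treeActQ [Nonempty X] (h : WallFam K X I s c) (C : ∀ (K : Type) [Group K], Prop)
    (Q : ∀ (K : Type) [Group K], Subgroup K → Prop)
    (hC : ∀ (x : X) (L : Subgroup K), (∀ g, g ∈ L ↔ Sm s (g • x) x) → C L)
    (hQ : ∀ (i : I) (x : X) (L : Subgroup K), s i x → (∀ g, g ∈ L ↔ g • i = i) → Q K L) :
    TreeActQ C Q K := by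
  letI := vtAct h
  refine ⟨Vt s, vtAct h, vtGraph h, vt_tree h, ?_, ?_, ?_, ?_⟩
  · rintro g _ _ ⟨x, z, rfl, rfl, h1⟩
    exact ⟨g • x, g • z, rfl, rfl, h.one_smul g h1⟩
  · rintro g _ _ ⟨x, z, rfl, rfl, i, h1, h2, h3⟩ h4 h5
    rw [vtAct_mk, Vt.mk_eq] at h4 h5
    apply h.noinv g i
    have h6 : s (g • i) z := (h4 _).1 ((h.equi g i x).2 h1)
    have h7 : ¬ s (g • i) x := fun h8 => h2 ((h.equi g i z).1 ((h5 _).2 h8))
    have e := h3 (c (g • i)) ((h.compl _ x).2 h7) (fun h8 => (h.compl _ z).1 h8 h6)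
    calc g • i = c (c (g • i)) := (h.cc _).symm
      _ = c i := by rw [e]
  · intro a
    obtain ⟨x, rfl⟩ := a.rep
    refine hC x _ ?_
    intro g
    rw [MulAction.mem_stabilizer_iff, vtAct_mk, Vt.mk_eq]
  · rintro _ _ ⟨x, z, rfl, rfl, i, h1, h2, h3⟩
    refine hQ i x _ h1 ?_
    intro g
    rw [Subgroup.mem_inf, MulAction.mem_stabilizer_iff, MulAction.mem_stabilizer_iff, vtAct_mk,
      vtAct_mk, Vt.mk_eq, Vt.mk_eq]
    constructor
    · rintro ⟨hg1, hg2⟩
      exact h3 (g • i) ((hg1 _).1 ((h.equi g i x).2 h1))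
        (fun h8 => h2 ((h.equi g i z).1 ((hg2 _).2 h8)))
    · intro hg
      have e1 : s i (g • x) := by
        have := (h.equi g i x).2 h1
        rwa [hg] at this
      have e2 : ¬ s i (g • z) := by
        intro h8
        rw [← hg] at h8
        exact h2 ((h.equi g i z).1 h8)
      refine edge_unique h e1 e2 ?_ h1 h2 h3
      intro k hk hk'
      have e3 := h.equi g (g⁻¹ • k) x
      have e4 := h.equi g (g⁻¹ • k) z
      rw [smul_inv_smul] at e3 e4
      rw [← hg, ← h3 (g⁻¹ • k) (e3.1 hk) (fun h4 => hk' (e4.2 h4)), smul_inv_smul]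

end one

section main

variable {V G : Type} [Group G] [MulAction G V] {H : Set (Set V)}

/-- **Cutting along one orbit of walls.** -/
theorem cut_oneQ {C : ∀ (K : Type) [Group K], Prop}
    {Q : ∀ (K : Type) [Group K], Subgroup K → Prop} (hCQ : TreeClosedQ C Q)
    (hH : PartialCube V H) (hinv : ∀ g : G, ∀ h ∈ H, g • h ∈ H)
    (hcross : ∀ g : G, ∀ h ∈ H, ¬ Crosses h (g • h)) (hno : ∀ g : G, ∀ h ∈ H, g • h ≠ hᶜ)
    (hQ : ∀ h ∈ H, ∀ K : Subgroup G, Q K ((MulAction.stabilizer G h).subgroupOf K))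
    {L : Subgroup G} {A : Set (Set V)} (hA : A ⊆ H)
    (hAL : ∀ g ∈ L, ∀ h ∈ A, g • h ∈ A) {h₀ : Set V} (h₀H : h₀ ∈ H)
    (hUL : ∀ g ∈ L, ∀ h ∈ A ∪ orb L h₀, g • h ∈ A ∪ orb L h₀)
    (hC : ∀ x, C ↥(clsStab L (A ∪ orb L h₀) hUL x)) (x₀ : V) : C ↥(clsStab L A hAL x₀) := by
  have hOH : orb L h₀ ⊆ H := by
    rintro _ ⟨g, _, rfl | rfl⟩
    · exact hinv g _ h₀H
    · exact hH.compl _ (hinv g _ h₀H)
  apply hCQ.tree
  set K := clsStab L A hAL x₀ with hK
  letI actX : MulAction K {y // Sim A y x₀} :=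
    { smul := fun g y => ⟨(g : G) • y.1, (Sim.smul hAL g.2.1 y.2).trans g.2.2⟩
      one_smul := fun y => Subtype.ext (one_smul G y.1)
      mul_smul := fun g g' y => Subtype.ext (mul_smul (g : G) (g' : G) y.1) }
  letI actI : MulAction K {k // k ∈ orb L h₀} :=
    { smul := fun g k => ⟨(g : G) • k.1, orb_inv L h₀ _ g.2.1 _ k.2⟩
      one_smul := fun k => Subtype.ext (one_smul G k.1)
      mul_smul := fun g g' k => Subtype.ext (mul_smul (g : G) (g' : G) k.1) }
  haveI : Nonempty {y // Sim A y x₀} := ⟨⟨x₀, fun _ _ => Iff.rfl⟩⟩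
  let s : {k // k ∈ orb L h₀} → {y // Sim A y x₀} → Prop := fun i x => x.1 ∈ i.1
  let c : {k // k ∈ orb L h₀} → {k // k ∈ orb L h₀} := fun i => ⟨i.1ᶜ, orb_compl L h₀ _ i.2⟩
  have hW : WallFam K {y // Sim A y x₀} {k // k ∈ orb L h₀} s c := by
    refine ⟨fun i x => Iff.rfl, fun i => Subtype.ext (compl_compl _), ?_, ?_, ?_, ?_, ?_⟩
    · intro g i x
      exact Set.smul_mem_smul_set_iff
    · intro x y
      exact Set.Finite.preimage (f := fun i : {k // k ∈ orb L h₀} => i.1)
        (fun i _ j _ h => Subtype.ext h)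
        ((hH.fin x.1 y.1).subset (fun k hk => hk)) |>.subset
        (fun i hi => ⟨hOH i.2, hi.1, hi.2⟩)
    · intro x y i hx hy
      obtain ⟨z, hz, j, hj, hj1, hj2, hj3, hj4⟩ := exists_step hH hA hOH (orb_compl L h₀) _
        x.1 y.1 rfl (x.2.trans y.2.symm) ⟨i.1, i.2, hx, hy⟩
      exact ⟨⟨z, hz.trans x.2⟩, ⟨j, hj⟩, hj1, hj2, hj3,
        fun k hk hk' => Subtype.ext (hj4 k.1 k.2 hk hk')⟩
    · rintro ⟨i, gi, hgi, hi⟩ ⟨j, gj, hgj, hj⟩
      have hiH : i ∈ H := hOH ⟨gi, hgi, hi⟩
      have hcr : ¬ Crosses i j := by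
        have e : j = (gj * gi⁻¹) • i ∨ j = ((gj * gi⁻¹) • i)ᶜ := by
          rcases hi with rfl | rfl <;> rcases hj with rfl | rfl
          · left; rw [mul_smul, inv_smul_smul]
          · right; rw [mul_smul, inv_smul_smul]
          · right; rw [Set.smul_set_compl, mul_smul, inv_smul_smul, compl_compl]
          · left; rw [Set.smul_set_compl, mul_smul, inv_smul_smul]
        rcases e with e | e
        · rw [e]
          exact hcross _ i hiH
        · rw [e]
          exact fun h => hcross _ i hiH (crosses_compl h)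
      rcases nest_of_not hcr with h | h | h | h
      · exact Or.inl fun x => h x.1
      · exact Or.inr (Or.inl fun x => h x.1)
      · exact Or.inr (Or.inr (Or.inl fun x => h x.1))
      · exact Or.inr (Or.inr (Or.inr fun x => h x.1))
    · intro g i h
      exact hno g i.1 (hOH i.2) (congrArg Subtype.val h)
  refine walls_treeActQ hW C Q ?_ ?_
  · intro x M hM
    have hx : Sim A x.1 x₀ := x.2
    refine hCQ.iso _ _ ⟨MulEquiv.symm ?_⟩ (hC x.1)
    refine
      { toFun := fun m => ⟨m.1.1, m.1.2.1, ?_⟩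
        invFun := fun g => ⟨⟨g.1, g.2.1, ?_⟩, ?_⟩
        left_inv := fun m => rfl
        right_inv := fun g => rfl
        map_mul' := fun m m' => rfl }
    · have h1 : Sm s (m.1 • x) x := (hM m.1).1 m.2
      intro k hk
      rcases hk with hk | hk
      · exact ((Sim.smul hAL m.1.2.1 hx).trans (m.1.2.2.trans hx.symm)) k hk
      · exact h1 ⟨k, hk⟩
    · have h1 : Sim A (g.1 • x.1) x.1 := fun k hk => g.2.2 k (Or.inl hk)
      exact (Sim.smul hAL g.2.1 hx.symm).trans (h1.trans hx)
    · exact (hM _).2 (fun i => g.2.2 i.1 (Or.inr i.2))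
  · intro i x M hx hM
    have e : M = (MulAction.stabilizer G i.1).subgroupOf K := by
      ext m
      rw [hM m, Subgroup.mem_subgroupOf, MulAction.mem_stabilizer_iff]
      constructor
      · intro h1
        exact congrArg Subtype.val h1
      · intro h1
        exact Subtype.ext h1
    rw [e]
    exact hQ i.1 (hOH i.2) K

open Classical in
theorem cut_finQ {C : ∀ (K : Type) [Group K], Prop}
    {Q : ∀ (K : Type) [Group K], Subgroup K → Prop} (hCQ : TreeClosedQ C Q)
    (hH : PartialCube V H) (hinv : ∀ g : G, ∀ h ∈ H, g • h ∈ H)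
    (hcross : ∀ g : G, ∀ h ∈ H, ¬ Crosses h (g • h)) (hno : ∀ g : G, ∀ h ∈ H, g • h ≠ hᶜ)
    (hQ : ∀ h ∈ H, ∀ K : Subgroup G, Q K ((MulAction.stabilizer G h).subgroupOf K))
    {L : Subgroup G} {B : Set (Set V)} (hB : B ⊆ H)
    (hBL : ∀ g ∈ L, ∀ h ∈ B, g • h ∈ B) (F : Finset (Set V)) (hF : ∀ f ∈ F, f ∈ H) :
    (∀ x, C ↥(clsStab L (fam L B F) (fam_inv L hBL F) x)) → ∀ x, C ↥(clsStab L B hBL x) := by
  induction F using Finset.induction_on with
  | empty =>
    intro h x
    refine clsStab_congr ?_ _ _ x (h x)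
    ext k
    simp [fam]
  | insert f F _ ih =>
    intro h
    apply ih (fun f' hf' => hF f' (Finset.mem_insert_of_mem hf'))
    have hfam : fam L B (insert f F) = fam L B F ∪ orb L f := by
      ext k
      simp only [fam, Finset.mem_insert, Set.mem_ofPred_eq, Set.mem_union]
      constructor
      · rintro (h1 | ⟨f', rfl | h2, h3⟩)
        · exact Or.inl (Or.inl h1)
        · exact Or.inr h3
        · exact Or.inl (Or.inr ⟨f', h2, h3⟩)
      · rintro ((h1 | ⟨f', h2, h3⟩) | h1)
        · exact Or.inl h1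
        · exact Or.inr ⟨f', Or.inr h2, h3⟩
        · exact Or.inr ⟨f, Or.inl rfl, h1⟩
    have hFH : fam L B F ⊆ H := by
      rintro k (hk | ⟨f', hf', g, _, rfl | rfl⟩)
      · exact hB hk
      · exact hinv g _ (hF f' (Finset.mem_insert_of_mem hf'))
      · exact hH.compl _ (hinv g _ (hF f' (Finset.mem_insert_of_mem hf')))
    have hUL : ∀ g ∈ L, ∀ h ∈ fam L B F ∪ orb L f, g • h ∈ fam L B F ∪ orb L f := by
      rw [← hfam]
      exact fam_inv L hBL _
    exact cut_oneQ hCQ hH hinv hcross hno hQ hFH (fam_inv L hBL F)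
      (hF f (Finset.mem_insert_self _ _)) hUL
      (fun x => clsStab_congr hfam (fam_inv L hBL _) hUL x (h x))

end main

end Pool.Agent.H751.CH
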