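import Pool.Agent.H751.CH.MedMainQ
import Pool.Agent.H751.CH.FinDet

/-!
# Local conditions on the stabilizers of the half-spaces
-/

set_option autoImplicit false
set_option linter.style.haveILetI false

namespace Pool.Agent.H751.CH

open Pointwise
open Pool.Agent.Y462.SS (Closed)
open Q182.Cyl (ClosedA)

theorem fg_map {G M : Type} [Group G] [Group M] (j : G →* M) {L : Subgroup G} (h : L.FG) :
    (L.map j).FG := by
  classical
  obtain ⟨S, hS⟩ := h
  refine ⟨S.image j, ?_⟩
  rw [Finset.coe_image, ← hS, MonoidHom.map_closure]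

/-- The subgroup `E` of `L` is admissible: it is virtually cyclic, and powers of an element of
infinite order of `E` are conjugate under `L` only if the exponents agree up to sign; or a
homomorphism from a subgroup of finite index of `L` to a group `P` has a finite kernel on `E`, where
`P` is in `C` or embeds in `E` (for instance `E` is a retract of a subgroup of finite index). -/
def Adm (C : ∀ (G : Type) [Group G], Prop) {G : Type} [Group G] (L E : Subgroup G) : Prop :=
  ((∃ c ∈ E, (Subgroup.zpowers c).relIndex E ≠ 0) ∧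
    ∀ h ∈ E, (∀ n : ℕ, 0 < n → h ^ n ≠ 1) → ∀ g ∈ L, ∀ m n : ℤ, g * h ^ m * g⁻¹ = h ^ n →
      |m| = |n|) ∨
  (∃ (L' : Subgroup G) (P : Type) (_ : Group P) (f : L' →* P), L' ≤ L ∧ L'.relIndex L ≠ 0 ∧
    {x : L' | (x : G) ∈ E ∧ f x = 1}.Finite ∧ (C P ∨ ∃ i : P →* E, Function.Injective i))

theorem Adm.map {C : ∀ (G : Type) [Group G], Prop} {G M : Type} [Group G] [Group M] (j : G →* M)
    (hj : Function.Injective j) {L E : Subgroup G} (h : Adm C L E) :
    Adm C (L.map j) (E.map j) := by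
  rcases h with ⟨⟨c, hc, hc'⟩, hbal⟩ | ⟨L', P, _, f, h1, h2, h3, h4⟩
  · left
    refine ⟨⟨j c, Subgroup.mem_map_of_mem j hc, ?_⟩, ?_⟩
    · rw [← MonoidHom.map_zpowers, Subgroup.relIndex_map_map_of_injective _ _ hj]
      exact hc'
    · rintro _ ⟨h, hh, rfl⟩ hinf _ ⟨g, hg, rfl⟩ m n e
      refine hbal h hh (fun k hk e' => hinf k hk (by rw [← map_pow, e', map_one])) g hg m n
        (hj ?_)
      rw [map_mul, map_mul, map_zpow, map_inv, map_zpow]
      exact e
  · right
    let ψ := L'.equivMapOfInjective j hj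
    refine ⟨L'.map j, P, inferInstance, f.comp ψ.symm.toMonoidHom, Subgroup.map_mono h1, ?_, ?_, ?_⟩
    · rw [Subgroup.relIndex_map_map_of_injective _ _ hj]
      exact h2
    · refine (h3.image ψ).subset ?_
      rintro x ⟨hx1, hx2⟩
      refine ⟨ψ.symm x, ⟨?_, hx2⟩, ψ.apply_symm_apply x⟩
      obtain ⟨y, hy, hyx⟩ := hx1
      have e : j ((ψ.symm x : L') : G) = (x : M) := by
        have := congrArg Subtype.val (ψ.apply_symm_apply x)
        exact this
      rw [← hyx] at e
      rw [hj e]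
      exact hy
    · rcases h4 with h4 | ⟨i, hi⟩
      · exact Or.inl h4
      · exact Or.inr ⟨(E.equivMapOfInjective j hj).toMonoidHom.comp i,
          (E.equivMapOfInjective j hj).injective.comp hi⟩

theorem Adm.of_map {C : ∀ (G : Type) [Group G], Prop} {G M : Type} [Group G] [Group M] (j : G →* M)
    (hj : Function.Injective j) {L E : Subgroup G} (h : Adm C (L.map j) (E.map j)) :
    Adm C L E := by
  rcases h with ⟨⟨_, ⟨c, hc, rfl⟩, hc'⟩, hbal⟩ | ⟨L', P, _, f, h1, h2, h3, h4⟩
  · left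
    refine ⟨⟨c, hc, ?_⟩, ?_⟩
    · rw [← MonoidHom.map_zpowers, Subgroup.relIndex_map_map_of_injective _ _ hj] at hc'
      exact hc'
    · intro h hh hinf g hg m n e
      refine hbal (j h) ⟨h, hh, rfl⟩
        (fun k hk e' => hinf k hk (hj (by rw [map_pow, e', map_one]))) (j g) ⟨g, hg, rfl⟩ m n ?_
      rw [← map_zpow, ← map_zpow, ← map_inv, ← map_mul, ← map_mul, e]
  · right
    have e : (L'.comap j).map j = L' := by
      rw [Subgroup.map_comap_eq]
      refine inf_eq_right.2 (h1.trans ?_)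
      rintro _ ⟨x, _, rfl⟩
      exact ⟨x, rfl⟩
    refine ⟨L'.comap j, P, inferInstance, f.comp (j.subgroupComap L'), ?_, ?_, ?_, ?_⟩
    · intro x hx
      obtain ⟨y, hy, hyx⟩ := h1 (show j x ∈ L' from hx)
      rw [← hj hyx]
      exact hy
    · rw [← Subgroup.relIndex_map_map_of_injective _ _ hj, e]
      exact h2
    · refine Set.Finite.of_finite_image (f := j.subgroupComap L') ?_ (fun a _ b _ e' => ?_)
      · refine h3.subset ?_
        rintro _ ⟨x, ⟨hx1, hx2⟩, rfl⟩
        exact ⟨⟨x, hx1, rfl⟩, hx2⟩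
      · exact Subtype.ext (hj (congrArg Subtype.val e'))
    · rcases h4 with h4 | ⟨i, hi⟩
      · exact Or.inl h4
      · exact Or.inr ⟨(E.equivMapOfInjective j hj).symm.toMonoidHom.comp i,
          (E.equivMapOfInjective j hj).symm.injective.comp hi⟩

/-- all finitely generated subgroups of `E` are admissible -/
def LocAdm (C : ∀ (G : Type) [Group G], Prop) (K : Type) [Group K] (E : Subgroup K) : Prop :=
  ∀ L E' : Subgroup K, L.FG → E'.FG → E' ≤ L → E' ≤ E → Adm C L E'

theorem locAdm_iso (C : ∀ (G : Type) [Group G], Prop) (K M : Type) [Group K] [Group M]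
    (e : K ≃* M) (E : Subgroup K) (h : LocAdm C K E) : LocAdm C M (E.map e.toMonoidHom) := by
  intro L E' hL hE' hle hle'
  have h1 : ∀ S : Subgroup M, (S.map e.symm.toMonoidHom).map e.toMonoidHom = S := by
    intro S
    rw [Subgroup.map_map]
    have : e.toMonoidHom.comp e.symm.toMonoidHom = MonoidHom.id M := by
      ext x
      simp
    rw [this, Subgroup.map_id]
  have h2 : (E.map e.toMonoidHom).map e.symm.toMonoidHom = E := by
    rw [Subgroup.map_map]
    have : e.symm.toMonoidHom.comp e.toMonoidHom = MonoidHom.id K := by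
      ext x
      simp
    rw [this, Subgroup.map_id]
  have h3 := h (L.map e.symm.toMonoidHom) (E'.map e.symm.toMonoidHom) (fg_map _ hL) (fg_map _ hE')
    (Subgroup.map_mono hle) (by rw [← h2]; exact Subgroup.map_mono hle')
  have h4 := h3.map e.toMonoidHom e.injective
  rwa [h1, h1] at h4

theorem good_of_adm {C : ∀ (G : Type) [Group G], Prop} (hC : Closed C) {K : Type} [Group K]
    {L : Subgroup K} {E : Subgroup L} (hCE : C (E.map L.subtype))
    (h : Adm C L (E.map L.subtype)) : Q182.Lu.VcBal E ∨ Q182.Lu.FinKer C E := by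
  have hj : Function.Injective L.subtype := L.subtype_injective
  rcases h with ⟨⟨_, ⟨c, hc, rfl⟩, hc'⟩, hbal⟩ | ⟨L', P, _, f, h1, h2, h3, h4⟩
  · left
    refine ⟨⟨c, hc, ?_⟩, ?_⟩
    · rw [← MonoidHom.map_zpowers, Subgroup.relIndex_map_map_of_injective _ _ hj] at hc'
      exact hc'
    · intro h hh hinf g m n e
      refine hbal (h : K) ⟨h, hh, rfl⟩ (fun k hk e' => hinf k hk (Subtype.ext e')) g g.2 m n ?_
      exact congrArg Subtype.val e
  · right
    have hP : C P := by
      rcases h4 with h4 | ⟨i, hi⟩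
      · exact h4
      · exact hC.of_injective _ _ i hi hCE
    have : (L'.subgroupOf L).FiniteIndex := ⟨h2⟩
    obtain ⟨D, _, ρ, hD, hρ⟩ := ind_det hC (L'.subgroupOf L)
      (f.comp (Subgroup.subgroupOfEquivOfLe h1).toMonoidHom) hP
    refine ⟨D, inferInstance, ρ, hD, ?_⟩
    refine Set.Finite.of_finite_image (f := fun x : L => (x : K)) ?_
      (fun a _ b _ e => Subtype.ext e)
    refine (h3.image (fun x : L' => (x : K))).subset ?_
    rintro _ ⟨x, ⟨hx1, hx2⟩, rfl⟩
    obtain ⟨h5, h6⟩ := hρ x hx2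
    exact ⟨⟨x, h5⟩, ⟨⟨x, hx1, rfl⟩, h6⟩, rfl⟩

theorem pairClosed_adm {C : ∀ (G : Type) [Group G], Prop} (hA : ClosedA C) :
    PairClosed C (LocAdm C) := by
  have hC : Closed C := hA.base.base
  refine ⟨?_, ?_, ?_, ?_⟩
  · rintro K L _ _ ⟨e⟩ hK
    exact hC.of_injective _ _ e.symm.toMonoidHom e.symm.injective hK
  · intro K L _ _ e E hE
    exact locAdm_iso C K L e E hE
  · intro G _ h
    exact C_loc hC G h
  · rintro K _ ⟨T, _, A, hT, hadj, hinv, hst, hed⟩
    refine C_loc hC K (fun L hL => ?_)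
    refine Q182.Lu.main hA (T := A) ⟨hT, fun g a b h => hadj g a b h,
      fun g a b h h' => hinv g a b h h'.1 h'.2⟩ ?_ ?_
    · intro v w hvw E hE hEv
      obtain ⟨h1, h2⟩ := hed v w hvw
      have hle : E.map L.subtype ≤ MulAction.stabilizer K v ⊓ MulAction.stabilizer K w := by
        rintro _ ⟨x, hx, rfl⟩
        exact ⟨(hEv hx).1, (hEv hx).2⟩
      refine good_of_adm hC ?_ (h2 L _ hL (fg_map _ hE) ?_ hle)
      · exact hC.of_injective _ _ (Subgroup.inclusion hle) (Subgroup.inclusion_injective hle) h1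
      · rintro _ ⟨x, _, rfl⟩
        exact x.2
    · intro v
      refine hC.of_injective _ _
        ({ toFun := fun x => ⟨(x : L), x.2⟩
           map_one' := rfl
           map_mul' := fun _ _ => rfl } : MulAction.stabilizer L v →* MulAction.stabilizer K v)
        (fun a b e => ?_) (hst v)
      exact Subtype.ext (Subtype.ext (congrArg (fun z : MulAction.stabilizer K v => (z : K)) e))

/-! ## crossings controlled by homomorphisms -/

section bad

variable {V G : Type} [Group G] [MulAction G V] {H : Set (Set V)}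

/-- `g` maps `h` to a half-space which crosses `h`, or to the complement of `h` -/
def Bad (g : G) (h : Set V) : Prop := Crosses h (g • h) ∨ g • h = hᶜ

theorem crosses_smul (g : G) {a b : Set V} (h : Crosses (g • a) (g • b)) : Crosses a b := by
  obtain ⟨h1, h2, h3, h4⟩ := h
  rw [← Set.smul_set_compl] at h2 h3 h4
  rw [← Set.smul_set_compl] at h4
  rw [← Set.smul_set_inter, Set.smul_set_nonempty] at h1 h2 h3 h4
  exact ⟨h1, h2, h3, h4⟩

theorem crosses_compl_left {a b : Set V} (h : Crosses aᶜ b) : Crosses a b := by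
  obtain ⟨h1, h2, h3, h4⟩ := h
  rw [compl_compl] at h3 h4
  exact ⟨h3, h4, h1, h2⟩

theorem Bad.compl {g : G} {h : Set V} (hb : Bad g hᶜ) : Bad g h := by
  rcases hb with hb | hb
  · left
    rw [Set.smul_set_compl] at hb
    exact crosses_compl (crosses_compl_left hb)
  · right
    rw [Set.smul_set_compl] at hb
    exact compl_injective hb

theorem Bad.conj {g a : G} {h : Set V} (hb : Bad g (a • h)) : Bad (a⁻¹ * g * a) h := by
  have e : (a⁻¹ * g * a) • h = a⁻¹ • g • a • h := by
    rw [mul_smul, mul_smul]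
  rcases hb with hb | hb
  · left
    rw [e]
    apply crosses_smul a
    rw [smul_inv_smul]
    exact hb
  · right
    rw [e, hb, ← Set.smul_set_compl, inv_smul_smul]

theorem Bad.orb {L : Subgroup G} {g : G} {f k : Set V} (hk : k ∈ orb L f) (hb : Bad g k) :
    ∃ l ∈ L, Bad (l⁻¹ * g * l) f := by
  obtain ⟨l, hl, rfl | rfl⟩ := hk
  · exact ⟨l, hl, hb.conj⟩
  · exact ⟨l, hl, hb.compl.conj⟩

/-- **The lemma on subgroups of finite index.** -/
theorem mem_of_finiteIndex {C : ∀ (G : Type) [Group G], Prop} (hA : ClosedA C) (o : V)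
    (hH : MedianCube V H) (hinv : ∀ g : G, ∀ h ∈ H, g • h ∈ H)
    (hst : ∀ x : V, C (MulAction.stabilizer G x)) (K : Subgroup G)
    (hK : ∀ L : Subgroup G, L.FG → L ≤ K → ∀ F : Finset (Set V),
      (∀ f ∈ F, f ∈ H ∧ ∃ g ∈ L, ∃ g' ∈ L, g • o ∈ f ∧ g' • o ∉ f) →
      ∃ L' : Subgroup G, L' ≤ L ∧ L'.relIndex L ≠ 0 ∧ ∀ f ∈ F, ∀ g ∈ L', ¬ Bad g f)
    (hQ : ∀ h ∈ H, ∀ L E : Subgroup G, L.FG → E.FG → E ≤ L → L ≤ K →
      E ≤ MulAction.stabilizer G h → Adm C L E) : C K := by
  classical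
  have hC : Closed C := hA.base.base
  refine C_loc hC K (fun L₁ hL₁ => ?_)
  -- the group `L`, as a subgroup of `G`
  obtain ⟨L, hL⟩ : ∃ L : Subgroup G, L = L₁.map K.subtype := ⟨_, rfl⟩
  have hLfg : L.FG := by rw [hL]; exact fg_map _ hL₁
  have hLK : L ≤ K := by
    rw [hL]
    rintro _ ⟨x, _, rfl⟩
    exact x.2
  suffices hmain : C L by
    rw [hL] at hmain
    exact hC.of_injective _ _ (L₁.equivMapOfInjective K.subtype K.subtype_injective).toMonoidHom
      (L₁.equivMapOfInjective K.subtype K.subtype_injective).injective hmain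
  obtain ⟨F, hF, hfam⟩ := exists_fam hH.fin hH.compl hinv L hLfg o
  let F' : Finset (Set V) := F.filter (fun f => ∃ g ∈ L, ∃ g' ∈ L, g • o ∈ f ∧ g' • o ∉ f)
  obtain ⟨L', hL', hfin, hbad⟩ := hK L hLfg hLK F' (by
    intro f hf
    obtain ⟨h1, h2⟩ := Finset.mem_filter.1 hf
    exact ⟨hF f h1, h2⟩)
  -- the normal core
  have hfi : (L'.subgroupOf L).FiniteIndex := ⟨hfin⟩
  have hNn : (L'.subgroupOf L).normalCore.Normal := (L'.subgroupOf L).normalCore_normal
  have hNle : (L'.subgroupOf L).normalCore ≤ L'.subgroupOf L := (L'.subgroupOf L).normalCore_le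
  have hNfin : (L'.subgroupOf L).normalCore.FiniteIndex := inferInstance
  obtain ⟨N, hN⟩ : ∃ N : Subgroup L, N = (L'.subgroupOf L).normalCore := ⟨_, rfl⟩
  rw [← hN] at hNn hNle hNfin
  refine hC.finiteIndex L N hNfin ?_
  -- `N` as a subgroup of `G`
  obtain ⟨M, hM⟩ : ∃ M : Subgroup G, M = N.map L.subtype := ⟨_, rfl⟩
  suffices hmain : C M by
    rw [hM] at hmain
    exact hC.of_injective _ _ (N.equivMapOfInjective L.subtype L.subtype_injective).toMonoidHom
      (N.equivMapOfInjective L.subtype L.subtype_injective).injective hmain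
  have hML : M ≤ L := by
    rw [hM]
    rintro _ ⟨x, _, rfl⟩
    exact x.2
  have hMbad : ∀ g ∈ M, ∀ f ∈ F', ∀ k ∈ orb L f, ¬ Bad g k := by
    rw [hM]
    rintro _ ⟨x, hx, rfl⟩ f hf k hk hb
    obtain ⟨l, hl, hb'⟩ := Bad.orb hk hb
    have h1 := hNn.conj_mem x hx (⟨l, hl⟩⁻¹)
    rw [inv_inv] at h1
    exact hbad f hf _ (hNle h1) hb'
  -- the subcomplex
  have hWL : ∀ g ∈ L, ∀ x ∈ {x | Sim (unsep L H o) x o}, g • x ∈ {x | Sim (unsep L H o) x o} := by
    intro g hg x hx
    refine (Sim.smul (unsep_inv hinv L o) hg hx).trans ?_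
    intro h hh
    have := hh.2 g hg 1 L.one_mem
    rw [one_smul] at this
    exact this
  obtain ⟨W, hW⟩ : ∃ W : Set V, W = {x | Sim (unsep L H o) x o} := ⟨_, rfl⟩
  rw [← hW] at hWL
  have hWo : o ∈ W := by
    rw [hW]
    exact fun _ _ => Iff.rfl
  have hWc : Conv H W := by
    rw [hW]
    exact cls_conv (fun h hh => hh.1) o
  have hWM : ∀ g ∈ M, ∀ x ∈ W, g • x ∈ W := fun g hg => hWL g (hML hg)
  have htr : ∀ k ∈ H, (Subtype.val ⁻¹' k : Set W).Nonempty →
      (Subtype.val ⁻¹' k : Set W)ᶜ.Nonempty → ∃ f ∈ F', k ∈ orb L f := by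
    rintro k hk ⟨⟨x, hxW⟩, hx⟩ ⟨⟨y, hyW⟩, hy⟩
    have hns : k ∉ unsep L H o := by
      intro h1
      rw [hW] at hxW hyW
      exact hy ((hyW _ h1).2 ((hxW _ h1).1 hx))
    have hk' := hk
    rw [← hfam] at hk'
    rcases hk' with h1 | ⟨f, hf, hkf⟩
    · exact absurd h1 hns
    · refine ⟨f, Finset.mem_filter.2 ⟨hf, ?_⟩, hkf⟩
      by_contra hcon
      push Not at hcon
      apply hns
      have h2 : f ∈ unsep L H o := by
        refine ⟨hF f hf, fun g hg g' hg' => ⟨hcon g hg g' hg', hcon g' hg' g hg⟩⟩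
      obtain ⟨l, hl, rfl | rfl⟩ := hkf
      · exact unsep_inv hinv L o l hl f h2
      · have h3 := unsep_inv hinv L o l hl f h2
        refine ⟨hH.compl _ h3.1, fun g hg g' hg' => ?_⟩
        rw [Set.mem_compl_iff, Set.mem_compl_iff, not_iff_not]
        exact h3.2 g hg g' hg'
  letI := subAct M W hWM
  haveI : Nonempty W := ⟨⟨o, hWo⟩⟩
  have hgood : Good M (tr H W) := by
    refine ⟨tr_median hH hWc, ?_, ?_, ?_⟩
    · rintro g _ ⟨k, hk, rfl, ⟨x, h1⟩, ⟨y, h2⟩⟩
      refine ⟨(g : G) • k, hinv g k hk, smul_tr M W hWM g k, ⟨g • x, ?_⟩, ⟨g • y, ?_⟩⟩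
      · exact Set.smul_mem_smul_set h1
      · rw [← Set.smul_set_compl]
        exact Set.smul_mem_smul_set h2
    · rintro g _ ⟨k, hk, rfl, h1, h2⟩ hc
      rw [smul_tr M W hWM g k] at hc
      obtain ⟨f, hf, hkf⟩ := htr k hk h1 h2
      exact hMbad g g.2 f hf k hkf (Or.inl (crosses_of_tr hc))
    · rintro g _ ⟨k, hk, rfl, h1, h2⟩ hc
      rw [smul_tr M W hWM g k] at hc
      obtain ⟨f, hf, hkf⟩ := htr k hk h1 h2
      refine hMbad g g.2 f hf k hkf (Or.inr ?_)
      refine (tr_unique hH hWc (hH.compl k hk) (hinv g k hk) hc.symm ?_ ?_).symm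
      · exact h2
      · rw [Set.preimage_compl, compl_compl]
        exact h1
  refine med_mainQ (pairClosed_adm hA) hgood ?_ ?_
  · refine stab_restrict (G := G) (fun K L _ _ ⟨e⟩ hK => hC.of_injective _ _ e.symm.toMonoidHom
      e.symm.injective hK) (fun x K hKx => hC.of_injective _ _ (Subgroup.inclusion hKx)
      (Subgroup.inclusion_injective hKx) (hst x)) M W hWM
  · rintro a ⟨k, hk, rfl, h1, h2⟩ S
    intro L₂ E₂ hL₂ hE₂ hle hle'
    -- transport to `G`
    let j : S →* G := M.subtype.comp S.subtype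
    have hj : Function.Injective j := M.subtype_injective.comp S.subtype_injective
    refine Adm.of_map j hj (hQ k hk _ _ (fg_map _ hL₂) (fg_map _ hE₂) (Subgroup.map_mono hle) ?_ ?_)
    · rintro _ ⟨x, _, rfl⟩
      exact hLK (hML x.1.2)
    · rintro _ ⟨x, hx, rfl⟩
      have h5 : (x : M) • (Subtype.val ⁻¹' k : Set W) = Subtype.val ⁻¹' k := hle' hx
      rw [smul_tr M W hWM] at h5
      exact (tr_unique hH hWc hk (hinv _ k hk) h5.symm h1 h2).symm

end bad

end Pool.Agent.H751.CH
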