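import Pool.Agent.H751.CH.LocH

/-!
# Groups acting on CAT(0) cube complexes: the main theorem with local conditions
-/

set_option autoImplicit false
set_option linter.style.haveILetI false

namespace Pool.Agent.H751.CH

open Pointwise
open Pool.Agent.Y462.SS (Closed)
open Q182.Cyl (ClosedA)

variable {C : ∀ (G : Type) [Group G], Prop} {V G : Type} [Group G] [MulAction G V]
  {H : Set (Set V)}

/-- A homomorphism from `L` to a group in `C` which separates the bad elements for `h` from the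
elements of the kernel, such that the bad elements are mapped to only finitely many powers of every
element of infinite order. -/
def Sep (C : ∀ (G : Type) [Group G], Prop) (L : Subgroup G) (h : Set V) : Prop :=
  ∃ (Q : Type) (_ : Group Q) (f : L →* Q), C Q ∧ (∀ g : L, f g = 1 → ¬ Bad (g : G) h) ∧
    ∀ q : Q, (∀ n : ℕ, 0 < n → q ^ n ≠ 1) → {k : ℤ | ∃ g : L, f g = q ^ k ∧ Bad (g : G) h}.Finite

theorem relIndex_sup_pow {L : Type} [Group L] (N : Subgroup L) [N.Normal] (t : L) (M : ℕ)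
    (hM : 0 < M) :
    (N ⊔ Subgroup.zpowers (t ^ M)).relIndex (N ⊔ Subgroup.zpowers t) ≠ 0 := by
  have hker : (QuotientGroup.mk' N).ker = N := QuotientGroup.ker_mk' N
  have hcomap : ∀ g : L, (Subgroup.zpowers (QuotientGroup.mk' N g)).comap (QuotientGroup.mk' N) =
      N ⊔ Subgroup.zpowers g := by
    intro g
    rw [← MonoidHom.map_zpowers, Subgroup.comap_map_eq, hker, sup_comm]
  rw [← hcomap, ← hcomap, Subgroup.relIndex_comap, Subgroup.map_comap_eq_self_of_surjective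
    (QuotientGroup.mk'_surjective N), map_pow]
  exact Q182.Cyl.zp_pow_index _ M hM

theorem loc_main (hA : ClosedA C) [Nonempty V] (hH : MedianCube V H)
    (hinv : ∀ g : G, ∀ h ∈ H, g • h ∈ H) (hst : ∀ x : V, C (MulAction.stabilizer G x))
    (hsep : ∀ L : Subgroup G, L.FG → ∀ h ∈ H, Sep C L h)
    (hQ : ∀ h ∈ H, ∀ L E : Subgroup G, L.FG → E.FG → E ≤ L → E ≤ MulAction.stabilizer G h →
      Adm C L E) : C G := by
  classical
  have hC : Closed C := hA.base.base
  refine C_loc hC G (fun L hL => ?_)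
  let o : V := Classical.arbitrary V
  obtain ⟨F, hF, hfam⟩ := exists_fam hH.fin hH.compl hinv L hL o
  -- walls which separate points of the orbit of `L` are in the orbits of `F`
  have hsepF : ∀ f ∈ H, (∃ g ∈ L, ∃ g' ∈ L, g • o ∈ f ∧ g' • o ∉ f) →
      ∃ i : {f // f ∈ F}, f ∈ orb L i.1 := by
    rintro f hf ⟨g, hg, g', hg', h1, h2⟩
    rw [← hfam] at hf
    rcases hf with hf | ⟨i, hi, hf⟩
    · exact absurd ((hf.2 g hg g' hg').1 h1) h2
    · exact ⟨⟨i, hi⟩, hf⟩
  choose P instP fP hCP hker hpow using (fun i : {f // f ∈ F} => hsep L hL i.1 (hF _ i.2))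
  obtain ⟨Q, _, Fh, hCQ, hFh⟩ := fin_det_iff hC P fP hCP Finset.univ
  have hFh' : ∀ x : L, x ∈ Fh.ker ↔ ∀ i, fP i x = 1 := by
    intro x
    rw [MonoidHom.mem_ker, hFh]
    exact ⟨fun h i => h i (Finset.mem_univ i), fun h i _ => h i⟩
  have hNn : Fh.ker.Normal := inferInstance
  obtain ⟨N, hN⟩ : ∃ N : Subgroup L, N = Fh.ker := ⟨_, rfl⟩
  rw [← hN] at hNn hFh'
  -- the bad elements
  have hbad : ∀ (f : Set V) (i : {f // f ∈ F}) (l : L), (f = (l : G) • i.1 ∨ f = ((l : G) • i.1)ᶜ) →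
      ∀ x : L, Bad (x : G) f → Bad ((l⁻¹ * x * l : L) : G) i.1 := by
    rintro f i l (rfl | rfl) x hb
    · exact hb.conj
    · exact hb.compl.conj
  have hQ' : ∀ K : Subgroup G, ∀ h ∈ H, ∀ L E : Subgroup G, L.FG → E.FG → E ≤ L → L ≤ K →
      E ≤ MulAction.stabilizer G h → Adm C L E :=
    fun K h hh L E h1 h2 h3 _ h5 => hQ h hh L E h1 h2 h3 h5
  have hdown : ∀ M : Subgroup L, C (M.map L.subtype) → C M := fun M hM =>
    hC.of_injective _ _ (M.equivMapOfInjective L.subtype L.subtype_injective).toMonoidHom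
      (M.equivMapOfInjective L.subtype L.subtype_injective).injective hM
  have hup : ∀ (M : Subgroup L) (L₀ : Subgroup G), L₀ ≤ M.map L.subtype → L₀ ≤ L := by
    intro M L₀ h1
    refine h1.trans ?_
    rintro _ ⟨x, _, rfl⟩
    exact x.2
  refine Pool.Agent.Y529.FJ.t_ext C hA.base L N ?_ ?_ ?_
  · -- the kernel
    refine hdown N (mem_of_finiteIndex hA o hH hinv hst _ ?_ (hQ' _))
    intro L₀ hL₀ hle F₀ hF₀
    refine ⟨L₀, le_rfl, by simp, ?_⟩
    intro f hf g hg hb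
    obtain ⟨h1, g₁, hg₁, g₂, hg₂, h2, h3⟩ := hF₀ f hf
    obtain ⟨i, l, hl, hfl⟩ := hsepF f h1 ⟨g₁, hup _ _ hle hg₁, g₂, hup _ _ hle hg₂, h2, h3⟩
    obtain ⟨x, hx, rfl⟩ := hle hg
    have h4 := hbad f i ⟨l, hl⟩ hfl x hb
    have h5 := hNn.conj_mem x hx (⟨l, hl⟩⁻¹)
    rw [inv_inv] at h5
    exact hker i _ ((hFh' _).1 h5 i) h4
  · refine C_of_ker hC (QuotientGroup.mk' N) (QuotientGroup.mk'_surjective N) Fh (fun x => ?_) hCQ
    rw [QuotientGroup.mk'_apply, QuotientGroup.eq_one_iff, hN, MonoidHom.mem_ker]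
  · intro t ht
    refine hdown _ (mem_of_finiteIndex hA o hH hinv hst _ ?_ (hQ' _))
    intro L₀ hL₀ hle F₀ hF₀
    have hm : ∀ f ∈ F₀, ∃ m : ℕ, 0 < m ∧ ∀ k : ℤ, (m : ℤ) ∣ k → ∀ n ∈ N,
        ¬ Bad ((n * t ^ k : L) : G) f := by
      intro f hf
      obtain ⟨h1, g₁, hg₁, g₂, hg₂, h2, h3⟩ := hF₀ f hf
      obtain ⟨i, l, hl, hfl⟩ := hsepF f h1 ⟨g₁, hup _ _ hle hg₁, g₂, hup _ _ hle hg₂, h2, h3⟩
      obtain ⟨l', hl'⟩ : ∃ l' : L, l' = ⟨l, hl⟩ := ⟨_, rfl⟩
      have hfl' : f = (l' : G) • i.1 ∨ f = ((l' : G) • i.1)ᶜ := by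
        rw [hl']
        exact hfl
      obtain ⟨q, hq⟩ : ∃ q, q = fP i (l'⁻¹ * t * l') := ⟨_, rfl⟩
      have hval : ∀ (k : ℤ), ∀ n ∈ N, fP i (l'⁻¹ * (n * t ^ k) * l') = q ^ k := by
        intro k n hn
        have h4 := hNn.conj_mem n hn l'⁻¹
        rw [inv_inv] at h4
        have h5 := (hFh' _).1 h4 i
        have e : l'⁻¹ * (n * t ^ k) * l' = (l'⁻¹ * n * l') * (l'⁻¹ * t * l') ^ k := by
          have e1 : (l'⁻¹ * t * l') ^ k = l'⁻¹ * t ^ k * l' := by
            have := conj_zpow (i := k) (a := l'⁻¹) (b := t)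
            rw [inv_inv] at this
            exact this
          rw [e1]
          group
        rw [e, map_mul, h5, one_mul, map_zpow, hq]
      by_cases hinf : ∀ n : ℕ, 0 < n → q ^ n ≠ 1
      · obtain ⟨B, hB⟩ := ((hpow i q hinf).image Int.natAbs).bddAbove
        refine ⟨B + 1, Nat.succ_pos _, ?_⟩
        intro k hk n hn hb
        have h4 := hbad f i l' hfl' _ hb
        have h5 := hval k n hn
        by_cases hk0 : k = 0
        · exact hker i _ (h5.trans (by rw [hk0, zpow_zero])) h4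
        · have h6 : k.natAbs ≤ B := hB ⟨k, ⟨_, h5, h4⟩, rfl⟩
          have h7 : B + 1 ≤ k.natAbs := by
            have := Int.natAbs_dvd_natAbs.2 hk
            rw [Int.natAbs_natCast] at this
            exact Nat.le_of_dvd (Int.natAbs_pos.2 hk0) this
          omega
      · push Not at hinf
        obtain ⟨m, hm, hqm⟩ := hinf
        refine ⟨m, hm, ?_⟩
        intro k hk n hn hb
        have h4 := hbad f i l' hfl' _ hb
        have h5 := hval k n hn
        obtain ⟨c, hc⟩ := hk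
        exact hker i _ (h5.trans (by rw [hc, zpow_mul, zpow_natCast, hqm, one_zpow])) h4
    choose! m hm0 hm using hm
    have hM : 0 < ∏ f ∈ F₀, m f := Finset.prod_pos (fun f hf => hm0 f hf)
    obtain ⟨M, hMe⟩ : ∃ M, M = ∏ f ∈ F₀, m f := ⟨_, rfl⟩
    rw [← hMe] at hM
    refine ⟨L₀ ⊓ (N ⊔ Subgroup.zpowers (t ^ M)).map L.subtype, inf_le_left, ?_, ?_⟩
    · rw [Subgroup.inf_relIndex_left]
      refine mt (Subgroup.relIndex_eq_zero_of_le_right hle) ?_
      rw [Subgroup.relIndex_map_map_of_injective _ _ L.subtype_injective]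
      exact relIndex_sup_pow N t M hM
    · rintro f hf g ⟨_, x, hx, rfl⟩ hb
      obtain ⟨a, ha, b, hb', rfl⟩ : ∃ a ∈ N, ∃ b ∈ Subgroup.zpowers (t ^ M), a * b = x := by
        have h1 : x ∈ ((N ⊔ Subgroup.zpowers (t ^ M) : Subgroup L) : Set L) := hx
        rw [Subgroup.normal_mul] at h1
        exact Set.mem_mul.1 h1
      obtain ⟨k, rfl⟩ := Subgroup.mem_zpowers_iff.1 hb'
      rw [← zpow_natCast, ← zpow_mul] at hb
      refine hm f hf ((M : ℤ) * k) ?_ a ha hb
      refine Dvd.dvd.mul_right ?_ k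
      rw [hMe]
      exact_mod_cast Finset.dvd_prod_of_mem m hf

end Pool.Agent.H751.CH
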