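import Pool.Agent.H751.CH.Hier

/-!
# Actions on CAT(0) cube complexes of any dimension
-/

set_option autoImplicit false
set_option linter.style.haveILetI false

namespace Pool.Agent.H751.CH

open Pointwise

/-- at least two of the points `x`, `y`, `z` are in `h` -/
def Maj {V : Type} (x y z : V) (h : Set V) : Prop :=
  (x ∈ h ∧ y ∈ h) ∨ (y ∈ h ∧ z ∈ h) ∨ (x ∈ h ∧ z ∈ h)

/-- The vertices `V` and the half-spaces `H` of a CAT(0) cube complex: `H` is closed under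
complements, two different points of `V` are separated by a half-space, and by finitely many of
them, and any three points `x`, `y`, `z` have a median, a point which is in a half-space if and only
if two of the points `x`, `y`, `z` are in it. -/
structure MedianCube (V : Type) (H : Set (Set V)) : Prop where
  compl : ∀ h ∈ H, hᶜ ∈ H
  fin : ∀ x y : V, {h | h ∈ H ∧ x ∈ h ∧ y ∉ h}.Finite
  sep : ∀ x y : V, x ≠ y → ∃ h ∈ H, x ∈ h ∧ y ∉ h
  med : ∀ x y z : V, ∃ m, ∀ h ∈ H, m ∈ h ↔ Maj x y z h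

section

variable {V : Type} {H : Set (Set V)}

/-- `z` is adjacent to `x`, across the half-space `h` -/
def AdjAcross (H : Set (Set V)) (h : Set V) (x z : V) : Prop :=
  x ∈ h ∧ z ∉ h ∧ ∀ k ∈ H, x ∈ k → z ∉ k → k = h

theorem ne_cases {a b : Set V} (h : a ≠ b) : (∃ w, w ∈ a ∧ w ∉ b) ∨ (∃ w, w ∈ b ∧ w ∉ a) := by
  by_contra hc
  push Not at hc
  exact h (Set.Subset.antisymm hc.1 hc.2)

/-- there is an edge across every half-space that separates two points, in their interval -/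
theorem MedianCube.edge (hH : MedianCube V H) (n : ℕ) : ∀ (x y : V) (h : Set V), h ∈ H →
    {k | k ∈ H ∧ x ∈ k ∧ y ∉ k}.ncard = n → x ∈ h → y ∉ h → ∃ x' z', AdjAcross H h x' z' := by
  induction n using Nat.strong_induction_on with
  | _ n ih =>
    intro x y h hh hn hx hy
    by_cases hone : ∀ k ∈ H, x ∈ k → y ∉ k → k = h
    · exact ⟨x, y, hx, hy, hone⟩
    · push Not at hone
      obtain ⟨k, hk, hkx, hky, hne⟩ := hone
      rcases ne_cases hne with ⟨w, hw1, hw2⟩ | ⟨w, hw1, hw2⟩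
      · -- `w ∈ k`, `w ∉ h`
        obtain ⟨m, hm⟩ := hH.med x y w
        have hmk : m ∈ k := (hm k hk).2 (Or.inr (Or.inr ⟨hkx, hw1⟩))
        have hmh : m ∉ h := by
          intro h1
          rcases (hm h hh).1 h1 with h2 | h2 | h2
          · exact hy h2.2
          · exact hy h2.1
          · exact hw2 h2.2
        have hsub : {l | l ∈ H ∧ x ∈ l ∧ m ∉ l} ⊂ {l | l ∈ H ∧ x ∈ l ∧ y ∉ l} := by
          refine ⟨?_, ?_⟩
          · rintro l ⟨hl, hl1, hl2⟩
            exact ⟨hl, hl1, fun hl3 => hl2 ((hm l hl).2 (Or.inl ⟨hl1, hl3⟩))⟩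
          · intro hle
            have : k ∈ {l | l ∈ H ∧ x ∈ l ∧ m ∉ l} := hle ⟨hk, hkx, hky⟩
            exact this.2.2 hmk
        exact ih _ (by rw [← hn]; exact Set.ncard_lt_ncard hsub (hH.fin x y)) x m h hh rfl hx hmh
      · -- `w ∈ h`, `w ∉ k`
        obtain ⟨m, hm⟩ := hH.med x y w
        have hmh : m ∈ h := (hm h hh).2 (Or.inr (Or.inr ⟨hx, hw1⟩))
        have hmk : m ∉ k := by
          intro h1
          rcases (hm k hk).1 h1 with h2 | h2 | h2
          · exact hky h2.2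
          · exact hky h2.1
          · exact hw2 h2.2
        have hsub : {l | l ∈ H ∧ m ∈ l ∧ y ∉ l} ⊂ {l | l ∈ H ∧ x ∈ l ∧ y ∉ l} := by
          refine ⟨?_, ?_⟩
          · rintro l ⟨hl, hl1, hl2⟩
            refine ⟨hl, ?_, hl2⟩
            rcases (hm l hl).1 hl1 with h2 | h2 | h2
            · exact h2.1
            · exact absurd h2.1 hl2
            · exact h2.1
          · intro hle
            have : k ∈ {l | l ∈ H ∧ m ∈ l ∧ y ∉ l} := hle ⟨hk, hkx, hky⟩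
            exact hmk this.2.1
        exact ih _ (by rw [← hn]; exact Set.ncard_lt_ncard hsub (hH.fin x y)) m y h hh rfl hmh hy

/-- one step from `x` into the direction of `y` -/
theorem MedianCube.near (hH : MedianCube V H) (n : ℕ) : ∀ x y : V, x ≠ y →
    {k | k ∈ H ∧ x ∈ k ∧ y ∉ k}.ncard = n →
    ∃ z, ∃ h ∈ H, x ∈ h ∧ z ∉ h ∧ y ∉ h ∧ ∀ k ∈ H, x ∈ k → z ∉ k → k = h := by
  induction n using Nat.strong_induction_on with
  | _ n ih =>
    intro x y hxy hn
    obtain ⟨h, hh, hx, hy⟩ := hH.sep x y hxy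
    by_cases hone : ∀ k ∈ H, x ∈ k → y ∉ k → k = h
    · exact ⟨y, h, hh, hx, hy, hy, hone⟩
    · push Not at hone
      obtain ⟨k, hk, hkx, hky, hne⟩ := hone
      -- we may exchange `h` and `k`
      have key : ∀ h k : Set V, h ∈ H → x ∈ h → y ∉ h → k ∈ H → x ∈ k → y ∉ k →
          (∃ w, w ∈ k ∧ w ∉ h) →
          ∃ z, ∃ h ∈ H, x ∈ h ∧ z ∉ h ∧ y ∉ h ∧ ∀ k ∈ H, x ∈ k → z ∉ k → k = h := by
        rintro h k hh hx hy hk hkx hky ⟨w, hw1, hw2⟩
        obtain ⟨m, hm⟩ := hH.med x y w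
        have hmk : m ∈ k := (hm k hk).2 (Or.inr (Or.inr ⟨hkx, hw1⟩))
        have hmh : m ∉ h := by
          intro h1
          rcases (hm h hh).1 h1 with h2 | h2 | h2
          · exact hy h2.2
          · exact hy h2.1
          · exact hw2 h2.2
        have hle : ∀ l ∈ H, x ∈ l → m ∉ l → y ∉ l :=
          fun l hl hl1 hl2 hl3 => hl2 ((hm l hl).2 (Or.inl ⟨hl1, hl3⟩))
        have hsub : {l | l ∈ H ∧ x ∈ l ∧ m ∉ l} ⊂ {l | l ∈ H ∧ x ∈ l ∧ y ∉ l} := by
          refine ⟨?_, ?_⟩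
          · rintro l ⟨hl, hl1, hl2⟩
            exact ⟨hl, hl1, hle l hl hl1 hl2⟩
          · intro hle
            have : k ∈ {l | l ∈ H ∧ x ∈ l ∧ m ∉ l} := hle ⟨hk, hkx, hky⟩
            exact this.2.2 hmk
        have hxm : x ≠ m := by
          rintro rfl
          exact hmh hx
        obtain ⟨z, h', hh', h1, h2, h3, h4⟩ := ih _
          (by rw [← hn]; exact Set.ncard_lt_ncard hsub (hH.fin x y)) x m hxm rfl
        exact ⟨z, h', hh', h1, h2, hle h' hh' h1 h3, h4⟩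
      rcases ne_cases hne with hw | hw
      · exact key h k hh hx hy hk hkx hky hw
      · exact key k h hk hkx hky hh hx hy hw

theorem MedianCube.partialCube (hH : MedianCube V H) : PartialCube V H :=
  ⟨hH.compl, hH.fin, fun x y hxy => hH.near _ x y hxy rfl⟩

/-- convex subsets -/
def Conv (H : Set (Set V)) (W : Set V) : Prop :=
  ∀ x ∈ W, ∀ y ∈ W, ∀ w m : V, (∀ h ∈ H, m ∈ h ↔ Maj x y w h) → m ∈ W

/-- the traces of the half-spaces on `W` -/
def tr (H : Set (Set V)) (W : Set V) : Set (Set W) :=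
  {a | ∃ k ∈ H, a = Subtype.val ⁻¹' k ∧ a.Nonempty ∧ aᶜ.Nonempty}

theorem tr_unique (hH : MedianCube V H) {W : Set V} (hW : Conv H W) {k k' : Set V} (hk : k ∈ H)
    (hk' : k' ∈ H) (e : (Subtype.val ⁻¹' k : Set W) = Subtype.val ⁻¹' k')
    (h1 : (Subtype.val ⁻¹' k : Set W).Nonempty) (h2 : (Subtype.val ⁻¹' k : Set W)ᶜ.Nonempty) :
    k = k' := by
  by_contra hne
  have key : ∀ k k' : Set V, k ∈ H → k' ∈ H → (Subtype.val ⁻¹' k : Set W) = Subtype.val ⁻¹' k' →
      (Subtype.val ⁻¹' k : Set W).Nonempty → (Subtype.val ⁻¹' k : Set W)ᶜ.Nonempty →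
      (∃ w, w ∈ k ∧ w ∉ k') → False := by
    rintro k k' hk hk' e ⟨x, hx⟩ ⟨y, hy⟩ ⟨w, hw1, hw2⟩
    obtain ⟨m, hm⟩ := hH.med x y w
    have hmW : m ∈ W := hW x x.2 y y.2 w m hm
    have hmk : m ∈ k := (hm k hk).2 (Or.inr (Or.inr ⟨hx, hw1⟩))
    have hyk' : (y : V) ∉ k' := by
      intro h3
      have : y ∈ (Subtype.val ⁻¹' k : Set W) := by rw [e]; exact h3
      exact hy this
    have hmk' : m ∉ k' := by
      intro h1
      rcases (hm k' hk').1 h1 with h2 | h2 | h2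
      · exact hyk' h2.2
      · exact hyk' h2.1
      · exact hw2 h2.2
    have : (⟨m, hmW⟩ : W) ∈ (Subtype.val ⁻¹' k : Set W) := hmk
    rw [e] at this
    exact hmk' this
  rcases ne_cases hne with hw | hw
  · exact key k k' hk hk' e h1 h2 hw
  · exact key k' k hk' hk e.symm (by rw [← e]; exact h1) (by rw [← e]; exact h2) hw

theorem tr_median (hH : MedianCube V H) {W : Set V} (hW : Conv H W) : MedianCube W (tr H W) := by
  refine ⟨?_, ?_, ?_, ?_⟩
  · rintro _ ⟨k, hk, rfl, h1, h2⟩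
    exact ⟨kᶜ, hH.compl k hk, rfl, h2, by rw [compl_compl]; exact h1⟩
  · intro x y
    refine ((hH.fin x y).image (fun k => (Subtype.val ⁻¹' k : Set W))).subset ?_
    rintro _ ⟨⟨k, hk, rfl, -, -⟩, h1, h2⟩
    exact ⟨k, ⟨hk, h1, h2⟩, rfl⟩
  · intro x y hxy
    obtain ⟨h, hh, h1, h2⟩ := hH.sep x.1 y.1 (fun e => hxy (Subtype.ext e))
    exact ⟨Subtype.val ⁻¹' h, ⟨h, hh, rfl, ⟨x, h1⟩, ⟨y, h2⟩⟩, h1, h2⟩
  · intro x y z
    obtain ⟨m, hm⟩ := hH.med x.1 y.1 z.1
    refine ⟨⟨m, hW x x.2 y y.2 z m hm⟩, ?_⟩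
    rintro _ ⟨k, hk, rfl, -, -⟩
    exact hm k hk

/-- the side of the carrier of a half-space -/
def bd (H : Set (Set V)) (h : Set V) : Set V := {x | ∃ z, AdjAcross H h x z}

theorem AdjAcross.iff (hH : MedianCube V H) {h : Set V} {x z : V} (hxz : AdjAcross H h x z)
    {l : Set V} (hl : l ∈ H) (h1 : l ≠ h) (h2 : l ≠ hᶜ) : x ∈ l ↔ z ∈ l := by
  constructor
  · intro hx
    by_contra hz
    exact h1 (hxz.2.2 l hl hx hz)
  · intro hz
    by_contra hx
    have := hxz.2.2 lᶜ (hH.compl l hl) hx (fun h3 => h3 hz)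
    exact h2 (by rw [← this, compl_compl])

theorem bd_conv (hH : MedianCube V H) {h : Set V} (hh : h ∈ H) : Conv H (bd H h) := by
  rintro x ⟨x', hx'⟩ y ⟨y', hy'⟩ w m hm
  obtain ⟨m', hm'⟩ := hH.med x' y' w
  have hmh : m ∈ h := (hm h hh).2 (Or.inl ⟨hx'.1, hy'.1⟩)
  have hmh' : m' ∉ h := by
    intro h1
    rcases (hm' h hh).1 h1 with h2 | h2 | h2
    · exact hx'.2.1 h2.1
    · exact hy'.2.1 h2.1
    · exact hx'.2.1 h2.1
  refine ⟨m', hmh, hmh', ?_⟩
  intro k hk hk1 hk2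
  by_contra hne
  have hne' : k ≠ hᶜ := by
    rintro rfl
    exact hk1 hmh
  have e1 := hx'.iff hH hk hne hne'
  have e2 := hy'.iff hH hk hne hne'
  apply hk2
  rw [hm' k hk, Maj, ← e1, ← e2]
  exact (hm k hk).1 hk1

theorem cls_conv {A : Set (Set V)} (hA : A ⊆ H) (o : V) : Conv H {x | Sim A x o} := by
  intro x hx y hy w m hm
  intro h hh
  rw [hm h (hA hh), Maj, hx h hh, hy h hh]
  tauto

end

section good

variable {G V : Type} [Group G] [MulAction G V] {H : Set (Set V)}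

/-- the conditions on the action -/
structure Good (G : Type) {V : Type} [Group G] [MulAction G V] (H : Set (Set V)) : Prop where
  cube : MedianCube V H
  inv : ∀ g : G, ∀ h ∈ H, g • h ∈ H
  cross : ∀ g : G, ∀ h ∈ H, ¬ Crosses h (g • h)
  noinv : ∀ g : G, ∀ h ∈ H, g • h ≠ hᶜ

/-- the action of a subgroup on an invariant subset -/
@[reducible] def subAct (K : Subgroup G) (W : Set V) (hK : ∀ g ∈ K, ∀ x ∈ W, g • x ∈ W) :
    MulAction K W where
  smul g x := ⟨(g : G) • x.1, hK g g.2 x.1 x.2⟩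
  one_smul x := Subtype.ext (one_smul G x.1)
  mul_smul g g' x := Subtype.ext (mul_smul (g : G) (g' : G) x.1)

theorem crosses_of_tr {W : Set V} {k k' : Set V}
    (h : Crosses (Subtype.val ⁻¹' k : Set W) (Subtype.val ⁻¹' k')) : Crosses k k' := by
  obtain ⟨⟨a, ha⟩, ⟨b, hb⟩, ⟨c, hc⟩, ⟨d, hd⟩⟩ := h
  exact ⟨⟨a, ha⟩, ⟨b, hb⟩, ⟨c, hc⟩, ⟨d, hd⟩⟩

theorem smul_tr (K : Subgroup G) (W : Set V) (hK : ∀ g ∈ K, ∀ x ∈ W, g • x ∈ W) (g : K)
    (k : Set V) : letI := subAct K W hK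
    g • (Subtype.val ⁻¹' k : Set W) = Subtype.val ⁻¹' ((g : G) • k) := by
  letI := subAct K W hK
  ext x
  rw [Set.mem_smul_set_iff_inv_smul_mem, Set.mem_preimage, Set.mem_preimage,
    Set.mem_smul_set_iff_inv_smul_mem]
  rfl

theorem Good.restrict (hG : Good G H) {W : Set V} (hW : Conv H W) (K : Subgroup G)
    (hK : ∀ g ∈ K, ∀ x ∈ W, g • x ∈ W) : letI := subAct K W hK; Good K (tr H W) := by
  letI := subAct K W hK
  refine ⟨tr_median hG.cube hW, ?_, ?_, ?_⟩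
  · rintro g _ ⟨k, hk, rfl, ⟨x, h1⟩, ⟨y, h2⟩⟩
    refine ⟨(g : G) • k, hG.inv g k hk, smul_tr K W hK g k, ⟨g • x, ?_⟩, ⟨g • y, ?_⟩⟩
    · exact Set.smul_mem_smul_set h1
    · rw [← Set.smul_set_compl]
      exact Set.smul_mem_smul_set h2
  · rintro g _ ⟨k, hk, rfl, -, -⟩ hc
    rw [smul_tr K W hK g k] at hc
    exact hG.cross g k hk (crosses_of_tr hc)
  · rintro g _ ⟨k, hk, rfl, h1, h2⟩ hc
    rw [smul_tr K W hK g k] at hc
    apply hG.noinv g k hk
    refine (tr_unique hG.cube hW (hG.cube.compl k hk) (hG.inv g k hk) ?_ ?_ ?_).symm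
    · exact hc.symm
    · exact h2
    · rw [Set.preimage_compl, compl_compl]
      exact h1

end good

end Pool.Agent.H751.CH
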