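import Pool.Agent.H751.CH.HierQ

/-!
# Actions on CAT(0) cube complexes of any dimension: the main theorem
-/

set_option autoImplicit false
set_option linter.style.haveILetI false

namespace Pool.Agent.H751.CH

open Pointwise

variable {V G : Type} [Group G] [MulAction G V] {H : Set (Set V)}

/-- the walls which separate no two points of the orbit of `o` -/
def unsep (L : Subgroup G) (H : Set (Set V)) (o : V) : Set (Set V) :=
  {h | h ∈ H ∧ ∀ g ∈ L, ∀ g' ∈ L, (g • o ∈ h ↔ g' • o ∈ h)}

theorem unsep_inv (hinv : ∀ g : G, ∀ h ∈ H, g • h ∈ H) (L : Subgroup G) (o : V) :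
    ∀ g ∈ L, ∀ h ∈ unsep L H o, g • h ∈ unsep L H o := by
  rintro g hg h ⟨h1, h2⟩
  refine ⟨hinv g h h1, ?_⟩
  intro a ha b hb
  rw [Set.mem_smul_set_iff_inv_smul_mem, Set.mem_smul_set_iff_inv_smul_mem, ← mul_smul,
    ← mul_smul]
  exact h2 _ (L.mul_mem (L.inv_mem hg) ha) _ (L.mul_mem (L.inv_mem hg) hb)

open Classical in
/-- finitely many orbits of walls separate points of the orbit of `o` -/
theorem exists_fam (hfin : ∀ x y : V, {h | h ∈ H ∧ x ∈ h ∧ y ∉ h}.Finite)
    (hcompl : ∀ h ∈ H, hᶜ ∈ H) (hinv : ∀ g : G, ∀ h ∈ H, g • h ∈ H) (L : Subgroup G)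
    (hL : L.FG) (o : V) : ∃ F : Finset (Set V), (∀ f ∈ F, f ∈ H) ∧
      fam L (unsep L H o) F = H := by
  obtain ⟨S, hS⟩ := hL
  let F : Finset (Set V) := S.biUnion (fun s => (hfin o (s • o)).toFinset ∪
    (hfin (s • o) o).toFinset)
  have hF : ∀ f ∈ F, f ∈ H := by
    intro f hf
    obtain ⟨s, _, hs⟩ := Finset.mem_biUnion.1 hf
    rcases Finset.mem_union.1 hs with h | h
    · exact ((hfin o (s • o)).mem_toFinset.1 h).1
    · exact ((hfin (s • o) o).mem_toFinset.1 h).1
  refine ⟨F, hF, ?_⟩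
  apply Set.Subset.antisymm
  · rintro k (hk | ⟨f', hf', g, _, rfl | rfl⟩)
    · exact hk.1
    · exact hinv g _ (hF f' hf')
    · exact hcompl _ (hinv g _ (hF f' hf'))
  · intro h hh
    by_contra hcon
    have hnB : h ∉ unsep L H o := fun h1 => hcon (Or.inl h1)
    have hnF : ∀ f ∈ F, h ∉ orb L f := fun f hf h1 => hcon (Or.inr ⟨f, hf, h1⟩)
    apply hnB
    -- the wall `h` separates no two points of the orbit
    have h1 : ∀ l ∈ L, ∀ s ∈ S, (l • o ∈ h ↔ l • s • o ∈ h) := by
      intro l hl s hs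
      constructor
      · intro h2
        by_contra h3
        refine hnF (l⁻¹ • h) ?_ ⟨l, hl, Or.inl (by rw [smul_inv_smul])⟩
        refine Finset.mem_biUnion.2 ⟨s, hs, Finset.mem_union.2 (Or.inl ?_)⟩
        rw [Set.Finite.mem_toFinset]
        refine ⟨hinv _ h hh, ?_, ?_⟩
        · rw [Set.mem_inv_smul_set_iff]
          exact h2
        · rw [Set.mem_inv_smul_set_iff]
          exact h3
      · intro h2
        by_contra h3
        refine hnF (l⁻¹ • h) ?_ ⟨l, hl, Or.inl (by rw [smul_inv_smul])⟩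
        refine Finset.mem_biUnion.2 ⟨s, hs, Finset.mem_union.2 (Or.inr ?_)⟩
        rw [Set.Finite.mem_toFinset]
        refine ⟨hinv _ h hh, ?_, ?_⟩
        · rw [Set.mem_inv_smul_set_iff]
          exact h2
        · rw [Set.mem_inv_smul_set_iff]
          exact h3
    have h2 : ∀ w ∈ Subgroup.closure (S : Set G), ∀ l ∈ L, (l • o ∈ h ↔ l • w • o ∈ h) := by
      intro w hw
      induction hw using Subgroup.closure_induction with
      | mem x hx => exact fun l hl => h1 l hl x hx
      | one => intro l _; rw [one_smul]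
      | mul x y hx hy ihx ihy =>
        intro l hl
        have hx' : x ∈ L := by rw [← hS]; exact hx
        rw [ihx l hl, mul_smul, ← mul_smul l x o, ← mul_smul l x (y • o)]
        exact ihy (l * x) (L.mul_mem hl hx')
      | inv x hx ihx =>
        intro l hl
        have hx' : x ∈ L := by rw [← hS]; exact hx
        have := ihx (l * x⁻¹) (L.mul_mem hl (L.inv_mem hx'))
        rw [← mul_smul (l * x⁻¹) x o, inv_mul_cancel_right] at this
        rw [← mul_smul l x⁻¹ o]
        exact this.symm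
    refine ⟨hh, ?_⟩
    intro g hg g' hg'
    have h3 := h2 (g⁻¹ * g') (by rw [hS]; exact L.mul_mem (L.inv_mem hg) hg') g hg
    rw [h3, ← mul_smul, mul_inv_cancel_left]

/-- the number of pairwise crossing walls is at most `n` -/
def DimLe (H : Set (Set V)) (n : ℕ) : Prop :=
  ∀ F : Finset (Set V), (∀ f ∈ F, f ∈ H) → (∀ f ∈ F, ∀ f' ∈ F, f ≠ f' → Crosses f f') →
    F.card ≤ n

/-- subgroups of the vertex stabilizers in the restricted action -/
theorem stab_restrict {C : ∀ (K : Type) [Group K], Prop}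
    (hiso : ∀ (K L : Type) [Group K] [Group L], Nonempty (K ≃* L) → C K → C L)
    (hC : ∀ x : V, ∀ K : Subgroup G, K ≤ MulAction.stabilizer G x → C K) (K : Subgroup G)
    (W : Set V) (hK : ∀ g ∈ K, ∀ x ∈ W, g • x ∈ W) : letI := subAct K W hK;
    ∀ x : W, ∀ M : Subgroup K, M ≤ MulAction.stabilizer K x → C M := by
  letI := subAct K W hK
  intro x M hM
  refine hiso _ _ ⟨(M.equivMapOfInjective K.subtype K.subtype_injective).symm⟩
    (hC x.1 (M.map K.subtype) ?_)
  rintro _ ⟨m, hm, rfl⟩
  exact congrArg Subtype.val (hM hm)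

open Classical in
theorem bd_dim {h : Set V} (hh : h ∈ H) (hH : MedianCube V H) {n : ℕ} (hdim : DimLe H (n + 1)) :
    DimLe (tr H (bd H h)) n := by
  intro F hF hcr
  -- choose half-spaces of `V`
  choose! k hkH hk1 hk2 hk3 using hF
  have hinj : Set.InjOn k F := by
    intro a ha b hb hab
    rw [hk1 a ha, hk1 b hb, hab]
  have hcrh : ∀ a ∈ F, Crosses (k a) h := by
    intro a ha
    have hne : k a ≠ h := by
      intro e
      obtain ⟨⟨y, z, hy⟩, hy'⟩ := hk3 a ha
      rw [hk1 a ha, e] at hy'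
      exact hy' hy.1
    have hne' : k a ≠ hᶜ := by
      intro e
      obtain ⟨⟨y, z, hy⟩, hy'⟩ := hk2 a ha
      rw [hk1 a ha, e] at hy'
      exact hy' hy.1
    obtain ⟨⟨x, x', hx⟩, hxa⟩ := hk2 a ha
    obtain ⟨⟨y, y', hy⟩, hya⟩ := hk3 a ha
    rw [hk1 a ha] at hxa hya
    have hxk : x ∈ k a := hxa
    have hyk : y ∉ k a := hya
    have e1 := hx.iff hH (hkH a ha) hne hne'
    have e2 := hy.iff hH (hkH a ha) hne hne'
    exact ⟨⟨x, hxk, hx.1⟩, ⟨x', e1.1 hxk, hx.2.1⟩, ⟨y, hyk, hy.1⟩,
      ⟨y', fun h3 => hyk (e2.2 h3), hy.2.1⟩⟩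
  have hnot : h ∉ F.image k := by
    intro hmem
    obtain ⟨a, ha, e⟩ := Finset.mem_image.1 hmem
    obtain ⟨-, ⟨y, h1, h2⟩, -⟩ := hcrh a ha
    rw [e] at h1
    exact h2 h1
  have hsymm : ∀ {a b : Set V}, Crosses a b → Crosses b a := by
    rintro a b ⟨h1, h2, h3, h4⟩
    rw [Set.inter_comm] at h1 h2 h3 h4
    exact ⟨h1, h3, h2, h4⟩
  have := hdim (insert h (F.image k)) (by
    intro f hf
    rcases Finset.mem_insert.1 hf with rfl | hf
    · exact hh
    · obtain ⟨a, ha, rfl⟩ := Finset.mem_image.1 hf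
      exact hkH a ha) (by
    intro f hf f' hf' hne
    rcases Finset.mem_insert.1 hf with rfl | hf
    · rcases Finset.mem_insert.1 hf' with rfl | hf'
      · exact absurd rfl hne
      · obtain ⟨a, ha, rfl⟩ := Finset.mem_image.1 hf'
        exact hsymm (hcrh a ha)
    · obtain ⟨a, ha, rfl⟩ := Finset.mem_image.1 hf
      rcases Finset.mem_insert.1 hf' with rfl | hf'
      · exact hcrh a ha
      · obtain ⟨b, hb, rfl⟩ := Finset.mem_image.1 hf'
        have hab : a ≠ b := by
          rintro rfl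
          exact hne rfl
        have h5 := hcr a ha b hb hab
        rw [hk1 a ha, hk1 b hb] at h5
        exact crosses_of_tr h5)
  rw [Finset.card_insert_of_notMem hnot, Finset.card_image_of_injOn hinj] at this
  omega

/-- **Groups acting on partial cubes such that no wall crosses its translates**, with a condition on
pairs -/
theorem cubical_mainQ {C : ∀ (K : Type) [Group K], Prop}
    {Q : ∀ (K : Type) [Group K], Subgroup K → Prop} (hCQ : TreeClosedQ C Q) [Nonempty V]
    (hH : PartialCube V H) (hinv : ∀ g : G, ∀ h ∈ H, g • h ∈ H)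
    (hcross : ∀ g : G, ∀ h ∈ H, ¬ Crosses h (g • h)) (hno : ∀ g : G, ∀ h ∈ H, g • h ≠ hᶜ)
    (hC : ∀ x : V, ∀ K : Subgroup G, K ≤ MulAction.stabilizer G x → C K)
    (hQ : ∀ h ∈ H, ∀ K : Subgroup G, Q K ((MulAction.stabilizer G h).subgroupOf K)) : C G := by
  apply hCQ.loc
  intro L hL
  let o : V := Classical.arbitrary V
  obtain ⟨F, hF, hfam⟩ := exists_fam hH.fin hH.compl hinv L hL o
  have hend : ∀ x, C ↥(clsStab L (fam L (unsep L H o) F) (fam_inv L (unsep_inv hinv L o) F) x) := by
    intro x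
    apply hC x
    rintro g ⟨_, hg⟩
    rw [MulAction.mem_stabilizer_iff]
    by_contra hne
    obtain ⟨z, h, hh, h1, _, h3, _⟩ := hH.step _ _ hne
    rw [hfam] at hg
    exact h3 ((hg h hh).1 h1)
  have hres := cut_finQ hCQ hH hinv hcross hno hQ (fun h hh => hh.1) (unsep_inv hinv L o) F hF
    hend o
  refine hCQ.iso _ _ ⟨?_⟩ hres
  refine
    { toFun := fun g => ⟨g.1, g.2.1⟩
      invFun := fun g => ⟨g.1, g.2, ?_⟩
      left_inv := fun g => rfl
      right_inv := fun g => rfl
      map_mul' := fun g g' => rfl }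
  intro h hh
  have := hh.2 g.1 g.2 1 L.one_mem
  rw [one_smul] at this
  exact this

/-- Closure properties of a class `C` of groups relative to a property `Q` of pairs of a group and a
subgroup: both are invariant under isomorphisms, a group is in `C` if all its finitely generated
subgroups are in `C`, and if it acts without inversions on a tree such that the stabilizers of the
vertices are in `C` and the stabilizers `E` of the edges are in `C` and have the property `Q`. -/
structure PairClosed (C : ∀ (K : Type) [Group K], Prop)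
    (Q : ∀ (K : Type) [Group K], Subgroup K → Prop) : Prop where
  iso : ∀ (K L : Type) [Group K] [Group L], Nonempty (K ≃* L) → C K → C L
  isoQ : ∀ (K L : Type) [Group K] [Group L] (e : K ≃* L) (E : Subgroup K), Q K E →
    Q L (E.map e.toMonoidHom)
  loc : ∀ (G : Type) [Group G], (∀ L : Subgroup G, L.FG → C L) → C G
  tree : ∀ (K : Type) [Group K], TreeActQ C (fun K _ E => C E ∧ Q K E) K → C K

theorem PairClosed.closedQ {C : ∀ (K : Type) [Group K], Prop}
    {Q : ∀ (K : Type) [Group K], Subgroup K → Prop} (h : PairClosed C Q) :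
    TreeClosedQ C (fun K _ E => C E ∧ Q K E) :=
  ⟨h.iso, fun K L _ _ e E hE =>
    ⟨h.iso _ _ ⟨E.equivMapOfInjective e.toMonoidHom e.injective⟩ hE.1, h.isoQ K L e E hE.2⟩,
    h.loc, h.tree⟩

/-- the condition on the pairs in the restricted action -/
theorem pair_restrict {Q : ∀ (K : Type) [Group K], Subgroup K → Prop}
    (hiso : ∀ (K L : Type) [Group K] [Group L] (e : K ≃* L) (E : Subgroup K), Q K E →
      Q L (E.map e.toMonoidHom)) (hG : Good G H)
    (hQ : ∀ h ∈ H, ∀ K : Subgroup G, Q K ((MulAction.stabilizer G h).subgroupOf K))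
    {W : Set V} (hW : Conv H W) (K : Subgroup G)
    (hK : ∀ g ∈ K, ∀ x ∈ W, g • x ∈ W) : letI := subAct K W hK;
    ∀ a ∈ tr H W, ∀ M : Subgroup K, Q M ((MulAction.stabilizer K a).subgroupOf M) := by
  letI := subAct K W hK
  rintro a ⟨k, hk, rfl, h1, h2⟩ M
  have h3 := hQ k hk (M.map K.subtype)
  have h4 := hiso _ _ (M.equivMapOfInjective K.subtype K.subtype_injective).symm _ h3
  convert h4 using 1
  ext m
  rw [Subgroup.mem_map_equiv, MulEquiv.symm_symm, Subgroup.mem_subgroupOf,
    Subgroup.mem_subgroupOf, MulAction.mem_stabilizer_iff, MulAction.mem_stabilizer_iff,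
    smul_tr K W hK]
  constructor
  · intro h5
    exact (tr_unique hG.cube hW hk (hG.inv _ k hk) h5.symm h1 h2).symm
  · intro h5
    have : ((m : K) : G) • k = k := h5
    rw [this]

theorem med_dimQ {C : ∀ (K : Type) [Group K], Prop}
    {Q : ∀ (K : Type) [Group K], Subgroup K → Prop} (hCQ : PairClosed C Q) (n : ℕ) :
    ∀ (V G : Type) [Group G] [MulAction G V] [Nonempty V] (H : Set (Set V)), Good G H →
      (∀ h ∈ H, h.Nonempty ∧ hᶜ.Nonempty) →
      (∀ x : V, ∀ K : Subgroup G, K ≤ MulAction.stabilizer G x → C K) →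
      (∀ h ∈ H, ∀ K : Subgroup G, Q K ((MulAction.stabilizer G h).subgroupOf K)) →
      DimLe H n → C G := by
  induction n with
  | zero =>
    intro V G _ _ _ H hG hnt hC hQ hdim
    refine cubical_mainQ hCQ.closedQ hG.cube.partialCube hG.inv hG.cross hG.noinv hC ?_
    intro h hh
    have := hdim {h} (by simpa using hh) (by
      intro f hf f' hf' hne
      rw [Finset.mem_singleton] at hf hf'
      exact absurd (hf.trans hf'.symm) hne)
    simp at this
  | succ n ih =>
    intro V G _ _ _ H hG hnt hC hQ hdim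
    refine cubical_mainQ hCQ.closedQ hG.cube.partialCube hG.inv hG.cross hG.noinv hC ?_
    intro h hh
    have key : ∀ K : Subgroup G, K ≤ MulAction.stabilizer G h → C K := by
      intro K hKh
      have hK : ∀ g ∈ K, ∀ x ∈ bd H h, g • x ∈ bd H h := by
        rintro g hg x ⟨z, hx, hz, hxz⟩
        have hgh : g • h = h := hKh hg
        refine ⟨g • z, ?_, ?_, ?_⟩
        · rw [← hgh]
          exact Set.smul_mem_smul_set hx
        · intro h1
          rw [← hgh, Set.smul_mem_smul_set_iff] at h1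
          exact hz h1
        · intro k hk h1 h2
          have := hxz (g⁻¹ • k) (hG.inv _ k hk) (Set.mem_inv_smul_set_iff.2 h1)
            (fun h3 => h2 (Set.mem_inv_smul_set_iff.1 h3))
          rw [← hgh, ← this, smul_inv_smul]
      obtain ⟨⟨x, hx⟩, ⟨y, hy⟩⟩ := hnt h hh
      obtain ⟨x', z', hxz⟩ := hG.cube.edge _ x y h hh rfl hx hy
      letI := subAct K (bd H h) hK
      haveI : Nonempty (bd H h) := ⟨⟨x', z', hxz⟩⟩
      exact ih (bd H h) K (tr H (bd H h)) (hG.restrict (bd_conv hG.cube hh) K hK)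
        (by rintro _ ⟨k, hk, rfl, h1, h2⟩; exact ⟨h1, h2⟩)
        (stab_restrict hCQ.iso hC K (bd H h) hK)
        (pair_restrict hCQ.isoQ hG hQ (bd_conv hG.cube hh) K hK) (bd_dim hh hG.cube hdim)
    intro K
    refine ⟨?_, hQ h hh K⟩
    have h1 := key (MulAction.stabilizer G h ⊓ K) inf_le_left
    refine hCQ.iso _ _ ⟨?_⟩ h1
    rw [← Subgroup.inf_subgroupOf_right]
    exact (Subgroup.subgroupOfEquivOfLe inf_le_right).symm

open Classical in
theorem cls_dim (hG : Good G H) (L : Subgroup G) (o : V) (F : Finset (Set V))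
    (hF : fam L (unsep L H o) F = H) :
    DimLe (tr H {x | Sim (unsep L H o) x o}) F.card := by
  intro E hE hcr
  choose! k hkH hk1 hk2 hk3 using hE
  have hf : ∀ a ∈ E, ∃ f ∈ F, k a ∈ orb L f := by
    intro a ha
    have h1 := hkH a ha
    rw [← hF] at h1
    rcases h1 with h1 | h1
    · exfalso
      obtain ⟨⟨x, hx⟩, hx'⟩ := hk2 a ha
      obtain ⟨⟨y, hy⟩, hy'⟩ := hk3 a ha
      rw [hk1 a ha] at hx' hy'
      exact hy' ((hy _ h1).2 ((hx _ h1).1 hx'))
    · exact h1
  choose! f hfF hf' using hf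
  have hinj : Set.InjOn f E := by
    intro a ha b hb hab
    by_contra hne
    have h1 := hcr a ha b hb hne
    rw [hk1 a ha, hk1 b hb] at h1
    have h2 : Crosses (k a) (k b) := crosses_of_tr h1
    obtain ⟨g, hg, hg'⟩ := hf' a ha
    obtain ⟨g', hg1, hg1'⟩ := hf' b hb
    rw [← hab] at hg1'
    have e : k b = (g' * g⁻¹) • k a ∨ k b = ((g' * g⁻¹) • k a)ᶜ := by
      rcases hg' with e1 | e1 <;> rcases hg1' with e2 | e2 <;> rw [e1, e2]
      · left; rw [mul_smul, inv_smul_smul]
      · right; rw [mul_smul, inv_smul_smul]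
      · right; rw [Set.smul_set_compl, mul_smul, inv_smul_smul, compl_compl]
      · left; rw [Set.smul_set_compl, mul_smul, inv_smul_smul]
    rcases e with e | e
    · rw [e] at h2
      exact hG.cross _ _ (hkH a ha) h2
    · rw [e] at h2
      exact hG.cross _ _ (hkH a ha) (crosses_compl h2)
  calc E.card = (E.image f).card := (Finset.card_image_of_injOn hinj).symm
    _ ≤ F.card := Finset.card_le_card (by
      intro b hb
      obtain ⟨a, ha, rfl⟩ := Finset.mem_image.1 hb
      exact hfF a ha)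

/-- **Actions on CAT(0) cube complexes of any dimension in which no hyperplane crosses its
translates.** -/
theorem med_mainQ {C : ∀ (K : Type) [Group K], Prop}
    {Q : ∀ (K : Type) [Group K], Subgroup K → Prop} (hCQ : PairClosed C Q) [Nonempty V]
    (hG : Good G H) (hC : ∀ x : V, ∀ K : Subgroup G, K ≤ MulAction.stabilizer G x → C K)
    (hQ : ∀ h ∈ H, ∀ K : Subgroup G, Q K ((MulAction.stabilizer G h).subgroupOf K)) :
    C G := by
  apply hCQ.loc
  intro L hL
  let o : V := Classical.arbitrary V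
  obtain ⟨F, -, hF⟩ := exists_fam hG.cube.fin hG.cube.compl hG.inv L hL o
  have hK : ∀ g ∈ L, ∀ x ∈ {x | Sim (unsep L H o) x o}, g • x ∈ {x | Sim (unsep L H o) x o} := by
    intro g hg x hx
    refine (Sim.smul (unsep_inv hG.inv L o) hg hx).trans ?_
    intro h hh
    have := hh.2 g hg 1 L.one_mem
    rw [one_smul] at this
    exact this
  letI := subAct L {x | Sim (unsep L H o) x o} hK
  haveI : Nonempty {x | Sim (unsep L H o) x o} := ⟨⟨o, fun _ _ => Iff.rfl⟩⟩
  exact med_dimQ hCQ F.card {x | Sim (unsep L H o) x o} L (tr H {x | Sim (unsep L H o) x o})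
    (hG.restrict (cls_conv (fun h hh => hh.1) o) L hK)
    (by rintro _ ⟨k, hk, rfl, h1, h2⟩; exact ⟨h1, h2⟩)
    (stab_restrict hCQ.iso hC L _ hK)
    (pair_restrict hCQ.isoQ hG hQ (cls_conv (fun h hh => hh.1) o) L hK) (cls_dim hG L o F hF)

end Pool.Agent.H751.CH
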