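import Mathlib

/-!
# The tree dual to a nested family of walls
-/

set_option autoImplicit false

namespace Pool.Agent.H751.CH

/-- A family of walls on `X`, indexed by `I`, with an action of `K`. `s i x` says that `x` is in the
half-space `i`, and `c i` is the opposite half-space. -/
structure WallFam (K X I : Type) [Group K] [MulAction K X] [MulAction K I] (s : I → X → Prop)
    (c : I → I) : Prop where
  compl : ∀ i x, s (c i) x ↔ ¬ s i x
  cc : ∀ i, c (c i) = i
  equi : ∀ (g : K) (i : I) (x : X), s (g • i) (g • x) ↔ s i x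
  fin : ∀ x y : X, {i | s i x ∧ ¬ s i y}.Finite
  step : ∀ (x y : X) (i : I), s i x → ¬ s i y →
    ∃ z j, s j x ∧ ¬ s j z ∧ ¬ s j y ∧ ∀ k, s k x → ¬ s k z → k = j
  nest : ∀ i j : I, (∀ x, ¬ (s i x ∧ s j x)) ∨ (∀ x, ¬ (s i x ∧ ¬ s j x)) ∨
    (∀ x, ¬ (¬ s i x ∧ s j x)) ∨ (∀ x, ¬ (¬ s i x ∧ ¬ s j x))
  noinv : ∀ (g : K) (i : I), g • i ≠ c i

section

variable {K X I : Type} [Group K] [MulAction K X] [MulAction K I] {s : I → X → Prop} {c : I → I}

/-- not separated -/
def Sm (s : I → X → Prop) (x y : X) : Prop := ∀ i, s i x ↔ s i y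

/-- exactly one wall separates -/
def One (s : I → X → Prop) (x z : X) : Prop := ∃ j, s j x ∧ ¬ s j z ∧ ∀ k, s k x → ¬ s k z → k = j

theorem One.congr {x x' z z' : X} (hx : Sm s x x') (hz : Sm s z z') (h : One s x z) :
    One s x' z' := by
  obtain ⟨j, h1, h2, h3⟩ := h
  exact ⟨j, (hx j).1 h1, fun h => h2 ((hz j).2 h),
    fun k h4 h5 => h3 k ((hx k).2 h4) (fun h => h5 ((hz k).1 h))⟩

theorem WallFam.one_symm (h : WallFam K X I s c) {x z : X} (h1 : One s x z) : One s z x := by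
  obtain ⟨j, h1, h2, h3⟩ := h1
  refine ⟨c j, (h.compl j z).2 h2, fun h4 => (h.compl j x).1 h4 h1, ?_⟩
  intro k hk hk'
  have := h3 (c k) ((h.compl k x).2 hk') (fun h4 => (h.compl k z).1 h4 hk)
  rw [← this, h.cc]

theorem WallFam.sm_of (h : WallFam K X I s c) {x y : X} (h1 : ∀ i, s i x → s i y) : Sm s x y := by
  intro i
  refine ⟨h1 i, fun h2 => ?_⟩
  by_contra h3
  exact (h.compl i y).1 (h1 (c i) ((h.compl i x).2 h3)) h2

theorem WallFam.sm_smul (h : WallFam K X I s c) (g : K) {x y : X} (h1 : Sm s x y) :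
    Sm s (g • x) (g • y) := by
  intro i
  have h2 := h.equi g (g⁻¹ • i) x
  have h3 := h.equi g (g⁻¹ • i) y
  rw [smul_inv_smul] at h2 h3
  rw [h2, h3]
  exact h1 _

theorem WallFam.one_smul (h : WallFam K X I s c) (g : K) {x y : X} (h1 : One s x y) :
    One s (g • x) (g • y) := by
  obtain ⟨j, h1, h2, h3⟩ := h1
  refine ⟨g • j, (h.equi g j x).2 h1, fun h4 => h2 ((h.equi g j y).1 h4), ?_⟩
  intro k hk hk'
  have e1 := h.equi g (g⁻¹ • k) x
  have e2 := h.equi g (g⁻¹ • k) y
  rw [smul_inv_smul] at e1 e2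
  rw [← h3 (g⁻¹ • k) (e1.1 hk) (fun h4 => hk' (e2.2 h4)), smul_inv_smul]

/-- the classes of points which are not separated -/
def clSetoid (s : I → X → Prop) : Setoid X where
  r := Sm s
  iseqv := ⟨fun _ _ => Iff.rfl, fun h i => (h i).symm, fun h h' i => (h i).trans (h' i)⟩

/-- the vertices of the dual tree -/
def Vt (s : I → X → Prop) : Type := Quotient (clSetoid s)

def Vt.mk (s : I → X → Prop) (x : X) : Vt s := Quotient.mk (clSetoid s) x

theorem Vt.rep (t : Vt s) : ∃ x, Vt.mk s x = t := Quotient.exists_rep t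

theorem Vt.mk_eq {x y : X} : Vt.mk s x = Vt.mk s y ↔ Sm s x y :=
  ⟨fun h => Quotient.exact h, fun h => Quotient.sound h⟩

/-- the action on the dual tree -/
@[reducible] def vtAct (h : WallFam K X I s c) : MulAction K (Vt s) where
  smul g := Quotient.map (fun x => g • x) (fun _ _ h1 => h.sm_smul g h1)
  one_smul := by
    intro t
    obtain ⟨x, rfl⟩ := Quotient.exists_rep t
    change Quotient.mk _ ((1 : K) • x) = _
    rw [_root_.one_smul]
  mul_smul := by
    intro g g' t
    obtain ⟨x, rfl⟩ := Quotient.exists_rep t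
    change Quotient.mk _ ((g * g') • x) = Quotient.mk _ (g • g' • x)
    rw [mul_smul]

theorem vtAct_mk (h : WallFam K X I s c) (g : K) (x : X) :
    letI := vtAct h; g • Vt.mk s x = Vt.mk s (g • x) := rfl

/-- the dual tree -/
def vtGraph (h : WallFam K X I s c) : SimpleGraph (Vt s) where
  Adj t u := ∃ x z, t = Vt.mk s x ∧ u = Vt.mk s z ∧ One s x z
  symm := ⟨by
    rintro t u ⟨x, z, rfl, rfl, h1⟩
    exact ⟨z, x, rfl, rfl, h.one_symm h1⟩⟩
  loopless := ⟨by
    rintro t ⟨x, z, h1, h2, j, h3, h4, -⟩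
    rw [h1] at h2
    exact h4 ((Vt.mk_eq.1 h2 j).1 h3)⟩

theorem vt_adj (h : WallFam K X I s c) {x z : X} :
    (vtGraph h).Adj (Vt.mk s x) (Vt.mk s z) ↔ One s x z := by
  constructor
  · rintro ⟨x', z', h1, h2, h3⟩
    exact h3.congr (fun i => ((Vt.mk_eq.1 h1) i).symm) (fun i => ((Vt.mk_eq.1 h2) i).symm)
  · intro h1
    exact ⟨x, z, rfl, rfl, h1⟩

theorem vt_reach (h : WallFam K X I s c) (n : ℕ) : ∀ x y : X, {i | s i x ∧ ¬ s i y}.ncard = n →
    (vtGraph h).Reachable (Vt.mk s x) (Vt.mk s y) := by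
  induction n using Nat.strong_induction_on with
  | _ n ih =>
    intro x y hn
    by_cases hs : ∀ i, s i x → s i y
    · rw [Vt.mk_eq.2 (h.sm_of hs)]
    · push Not at hs
      obtain ⟨i, hi1, hi2⟩ := hs
      obtain ⟨z, j, h1, h2, h3, h4⟩ := h.step x y i hi1 hi2
      have hsub : {i | s i z ∧ ¬ s i y} ⊂ {i | s i x ∧ ¬ s i y} := by
        refine ⟨?_, ?_⟩
        · rintro k ⟨hk1, hk2⟩
          refine ⟨?_, hk2⟩
          by_contra hk3
          have h5 := h4 (c k) ((h.compl k x).2 hk3) (fun h6 => (h.compl k z).1 h6 hk1)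
          apply h3
          rw [← h5]
          exact (h.compl k y).2 hk2
        · intro hle
          have : j ∈ {i | s i z ∧ ¬ s i y} := hle ⟨h1, h3⟩
          exact h2 this.1
      have hlt : {i | s i z ∧ ¬ s i y}.ncard < n := by
        rw [← hn]
        exact Set.ncard_lt_ncard hsub (h.fin x y)
      refine SimpleGraph.Reachable.trans ?_ (ih _ hlt z y rfl)
      exact SimpleGraph.Adj.reachable ((vt_adj h).2 ⟨j, h1, h2, h4⟩)

/-- an edge is determined by the wall that it crosses -/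
theorem edge_unique (h : WallFam K X I s c) {x z x' z' : X} {i : I}
    (h1 : s i x) (h2 : ¬ s i z) (h3 : ∀ k, s k x → ¬ s k z → k = i)
    (h1' : s i x') (h2' : ¬ s i z') (h3' : ∀ k, s k x' → ¬ s k z' → k = i) :
    Sm s x x' ∧ Sm s z z' := by
  -- first the side of `x`
  have key : ∀ {x z x' z' : X}, s i x → ¬ s i z → (∀ k, s k x → ¬ s k z → k = i) →
      s i x' → ¬ s i z' → (∀ k, s k x' → ¬ s k z' → k = i) → ∀ k, s k x → s k x' := by
    intro x z x' z' h1 h2 h3 h1' h2' h3' k hk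
    by_contra hk'
    have hz : s k z := by
      by_contra hz
      rw [h3 k hk hz] at hk'
      exact hk' h1'
    have hz' : ¬ s k z' := by
      intro hz'
      have h5 := h3' (c k) ((h.compl k x').2 hk') (fun h6 => (h.compl k z').1 h6 hz')
      have h6 : s (c k) x := by rw [h5]; exact h1
      exact (h.compl k x).1 h6 hk
    rcases h.nest i k with h7 | h7 | h7 | h7
    · exact h7 x ⟨h1, hk⟩
    · exact h7 x' ⟨h1', hk'⟩
    · exact h7 z ⟨h2, hz⟩
    · exact h7 z' ⟨h2', hz'⟩
  have hx : Sm s x x' := h.sm_of (key h1 h2 h3 h1' h2' h3')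
  refine ⟨hx, h.sm_of ?_⟩
  intro k hk
  by_contra hk'
  by_cases hkx : s k x
  · have hkx' := (hx k).1 hkx
    rw [h3' k hkx' hk'] at hk
    exact h2 hk
  · have h5 := h3 (c k) ((h.compl k x).2 hkx) (fun h6 => (h.compl k z).1 h6 hk)
    have h6 : s (c k) x' := by rw [h5]; exact h1'
    have h7 : ¬ s k x' := (h.compl k x').1 h6
    have h8 : s (c k) z' := (h.compl k z').2 hk'
    rw [h5] at h8
    exact h2' h8

theorem vt_tree [Nonempty X] (h : WallFam K X I s c) : (vtGraph h).IsTree := by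
  have : Nonempty (Vt s) := ⟨Vt.mk s (Classical.arbitrary X)⟩
  refine ⟨⟨?_⟩, ?_⟩
  · intro t u
    obtain ⟨x, rfl⟩ := t.rep
    obtain ⟨y, rfl⟩ := u.rep
    exact vt_reach h _ x y rfl
  · rw [SimpleGraph.isAcyclic_iff_forall_adj_isBridge]
    intro t u htu
    obtain ⟨x, rfl⟩ := t.rep
    obtain ⟨z, rfl⟩ := u.rep
    obtain ⟨i, h1, h2, h3⟩ := (vt_adj h).1 htu
    rw [SimpleGraph.isBridge_iff]
    intro hr
    have hall : ∀ v : Vt s, ((vtGraph h) \ SimpleGraph.fromEdgeSet
        {s(Vt.mk s x, Vt.mk s z)}).Reachable (Vt.mk s x) v → ∀ y, v = Vt.mk s y → s i y := by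
      intro v hv
      rw [SimpleGraph.reachable_iff_reflTransGen] at hv
      induction hv with
      | refl =>
        intro y hy
        exact (Vt.mk_eq.1 hy i).1 h1
      | @tail b d _ hbd ih =>
        intro y hy
        obtain ⟨hadj, hne⟩ := (SimpleGraph.sdiff_adj _ _ _ _).1 hbd
        obtain ⟨x', z', hx', hz', j, j1, j2, j3⟩ := hadj
        have hix : s i x' := ih x' hx'
        by_contra hiy
        have hiz : ¬ s i z' := by
          intro h4
          apply hiy
          rw [hz'] at hy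
          exact (Vt.mk_eq.1 hy i).1 h4
        have hij := j3 i hix hiz
        subst hij
        obtain ⟨e1, e2⟩ := edge_unique h h1 h2 h3 j1 j2 j3
        apply hne
        rw [SimpleGraph.fromEdgeSet_adj]
        refine ⟨?_, ?_⟩
        · rw [hx', hz', Vt.mk_eq.2 e1, Vt.mk_eq.2 e2]
          rfl
        · rw [hx', hz']
          intro h4
          exact j2 ((Vt.mk_eq.1 h4 i).1 j1)
    exact h2 (hall _ hr z rfl)

end

end Pool.Agent.H751.CH
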